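import Pool.Agent.H21.XF.Main
import Pool.Agent.H21.Final2

/-!
# XF, module 8: all degrees
-/

set_option autoImplicit false

namespace Pool.Agent.H21.XF

open MvPolynomial Pool.Agent.H21
open scoped Classical

/-- All degrees, for `u ≥ a n^d` off the windows of the thresholds `t_D`, `D ≤ D₀`, `D` not in the set
`P` of degrees in which the formula is known for all `u`. -/
theorem all_degrees_log (d : ℕ) (hd : 2 ≤ d) (P : ℕ → Prop)
    (hP : ∀ D, d ≤ D → P D → ∃ n₀ : ℕ, ∀ n, n₀ ≤ n → ∀ u : ℕ, ∀ (K : Type) [Field K] [CharZero K],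
      u ≤ Module.finrank K (homogeneousSubmodule (Fin n) K d) → FrobergAt K n d u (D - d))
    (a : ℝ) (ha : 0 < a) : ∃ (D₀ : ℕ) (C : ℝ), 0 < C ∧
    ∃ n₀ : ℕ, ∀ n, n₀ ≤ n → ∀ u : ℕ, a * (n : ℝ) ^ d ≤ (u : ℝ) →
      (∀ D, d ≤ D → ¬ P D → D ≤ D₀ →
        (u : ℝ) ≤ asymThreshold d D * (n : ℝ) ^ d - C * (n : ℝ) ^ (d - 1) * Real.log n ∨
        asymThreshold d D * (n : ℝ) ^ d + C * (n : ℝ) ^ (d - 1) ≤ (u : ℝ)) →
      FrobergAll n d u := by
  obtain ⟨Dm, hDm, hlt⟩ := thr_small d hd a ha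
  have hone : ∀ D : ℕ, ∃ C : ℝ, 0 < C ∧ ∃ n₀ : ℕ, d ≤ D → ∀ n, n₀ ≤ n → ∀ u : ℕ,
      ((u : ℝ) ≤ asymThreshold d D * (n : ℝ) ^ d - C * (n : ℝ) ^ (d - 1) * Real.log n →
        ∀ (K : Type) [Field K] [CharZero K], FrobergAt K n d u (D - d)) ∧
      (asymThreshold d D * (n : ℝ) ^ d + C * (n : ℝ) ^ (d - 1) ≤ (u : ℝ) →
        ∀ (K : Type) [Field K] [CharZero K],
          u ≤ Module.finrank K (homogeneousSubmodule (Fin n) K d) →
          ∀ j : ℕ, D ≤ j + d → FrobergAt K n d u j) := by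
    intro D
    by_cases hD : d ≤ D
    · obtain ⟨C, hC, n₀, h⟩ := one_degree_log d D hd hD
      exact ⟨C, hC, n₀, fun _ => h⟩
    · exact ⟨1, one_pos, 0, fun h => absurd h hD⟩
  choose Cf hCf0 nf hnf using hone
  have hP' : ∀ D, ∃ n₀ : ℕ, d ≤ D → P D → ∀ n, n₀ ≤ n → ∀ u : ℕ,
      ∀ (K : Type) [Field K] [CharZero K],
      u ≤ Module.finrank K (homogeneousSubmodule (Fin n) K d) → FrobergAt K n d u (D - d) := by
    intro D
    by_cases hD : d ≤ D ∧ P D
    · obtain ⟨n₀, h⟩ := hP D hD.1 hD.2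
      exact ⟨n₀, fun _ _ => h⟩
    · exact ⟨0, fun h h' => absurd ⟨h, h'⟩ hD⟩
  choose pf hpf using hP'
  obtain ⟨C, hC⟩ : ∃ C : ℝ, C = ∑ D ∈ Finset.range (Dm + 1), Cf D := ⟨_, rfl⟩
  have hCle : ∀ D ≤ Dm, Cf D ≤ C := fun D hD => by
    rw [hC]
    exact Finset.single_le_sum (fun i _ => (hCf0 i).le) (Finset.mem_range.2 (by omega))
  have hC0 : 0 < C := lt_of_lt_of_le (hCf0 Dm) (hCle Dm le_rfl)
  obtain ⟨n₁, hn₁⟩ := exists_nat_ge (Cf Dm / (a - asymThreshold d Dm))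
  refine ⟨Dm, C, hC0, 1 + n₁ + (∑ D ∈ Finset.range (Dm + 1), nf D) +
    ∑ D ∈ Finset.range (Dm + 1), pf D, fun n hn u hu hwin K _ _ huK j => ?_⟩
  have hfn : ∀ D ≤ Dm, nf D ≤ n := by
    intro D hD
    have := Finset.single_le_sum (f := nf) (fun i _ => Nat.zero_le _)
      (Finset.mem_range.mpr (by omega : D < Dm + 1))
    omega
  have hpn : ∀ D ≤ Dm, pf D ≤ n := by
    intro D hD
    have := Finset.single_le_sum (f := pf) (fun i _ => Nat.zero_le _)
      (Finset.mem_range.mpr (by omega : D < Dm + 1))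
    omega
  have hn1 : (1 : ℝ) ≤ n := by exact_mod_cast (by omega : 1 ≤ n)
  have hn0 : (0 : ℝ) < n := by linarith
  have hnd1 : (0 : ℝ) < (n : ℝ) ^ (d - 1) := by positivity
  have hlog : 0 ≤ Real.log n := Real.log_nonneg hn1
  rcases le_or_gt (j + d) Dm with hj | hj
  · by_cases hPj : P (j + d)
    · have h2 := hpf (j + d) (by omega) hPj n (hpn _ hj) u K huK
      rwa [Nat.add_sub_cancel] at h2
    · rcases hwin (j + d) (by omega) hPj hj with h | h
      · have h2 := (hnf (j + d) (by omega) n (hfn _ hj) u).1 (by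
          have h3 := mul_le_mul_of_nonneg_right (mul_le_mul_of_nonneg_right
            (hCle (j + d) hj) hnd1.le) hlog
          linarith) K
        rwa [Nat.add_sub_cancel] at h2
      · exact (hnf (j + d) (by omega) n (hfn _ hj) u).2 (by
          have := mul_le_mul_of_nonneg_right (hCle (j + d) hj) hnd1.le
          linarith) K huK j le_rfl
  · refine (hnf Dm hDm n (hfn Dm le_rfl) u).2 ?_ K huK j hj.le
    have h1 : 0 < a - asymThreshold d Dm := by linarith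
    have h2 : Cf Dm ≤ (a - asymThreshold d Dm) * n := by
      rw [div_le_iff₀ h1] at hn₁
      have h3 : (n₁ : ℝ) ≤ n := by exact_mod_cast (by omega : n₁ ≤ n)
      calc Cf Dm ≤ n₁ * (a - asymThreshold d Dm) := hn₁
        _ ≤ n * (a - asymThreshold d Dm) := mul_le_mul_of_nonneg_right h3 h1.le
        _ = _ := by ring
    have h3 : (n : ℝ) ^ d = n * (n : ℝ) ^ (d - 1) := by
      rw [mul_comm, ← pow_succ]
      congr 1
      omega
    have h4 := mul_le_mul_of_nonneg_right h2 hnd1.le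
    have h5 : (a - asymThreshold d Dm) * n * (n : ℝ) ^ (d - 1) =
        (a - asymThreshold d Dm) * (n : ℝ) ^ d := by
      rw [h3]
      ring
    rw [h5] at h4
    linarith

/-- The number of the exceptional `u ≥ a n^d`. -/
theorem count_of_windows (d : ℕ) (P : ℕ → Prop) (a : ℝ) (D₀ : ℕ) (C : ℝ) (hC : 0 < C)
    (n₀ : ℕ) (h : ∀ n, n₀ ≤ n → ∀ u : ℕ, a * (n : ℝ) ^ d ≤ (u : ℝ) →
      (∀ D, P D → D ≤ D₀ →
        (u : ℝ) ≤ asymThreshold d D * (n : ℝ) ^ d - C * (n : ℝ) ^ (d - 1) * Real.log n ∨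
        asymThreshold d D * (n : ℝ) ^ d + C * (n : ℝ) ^ (d - 1) ≤ (u : ℝ)) →
      FrobergAll n d u) (n : ℕ) (hn : n₀ ≤ n) (hn3 : 3 ≤ n) (N : ℕ) :
      (((Finset.Icc 1 N).filter
        (fun u : ℕ => a * (n : ℝ) ^ d ≤ (u : ℝ) ∧ ¬ FrobergAll n d u)).card : ℝ) ≤
      ((D₀ + 1) * (2 * C + 1)) * (n : ℝ) ^ (d - 1) * Real.log n := by
  have hnR : (3 : ℝ) ≤ n := by exact_mod_cast hn3
  have hn0 : (0 : ℝ) < n := by linarith
  have hnd1 : (1 : ℝ) ≤ (n : ℝ) ^ (d - 1) := one_le_pow₀ (by linarith)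
  have hlog : 1 ≤ Real.log n := by
    rw [Real.le_log_iff_exp_le hn0]
    have := Real.exp_one_lt_d9
    linarith
  set bad := (Finset.Icc 1 N).filter
        (fun u : ℕ => a * (n : ℝ) ^ d ≤ (u : ℝ) ∧ ¬ FrobergAll n d u) with hbad
  set w : ℝ := C * (n : ℝ) ^ (d - 1) * Real.log n with hw
  have hw0 : 0 ≤ w := by positivity
  set B : ℕ → Finset ℕ := fun D =>
    bad.filter (fun u : ℕ => |(u : ℝ) - asymThreshold d D * (n : ℝ) ^ d| < w) with hB
  have hcover : bad ⊆ (Finset.range (D₀ + 1)).biUnion B := by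
    intro u hu
    rw [Finset.mem_biUnion]
    by_contra hcon
    push Not at hcon
    have h1 := (Finset.mem_filter.mp hu).2
    refine h1.2 (h n hn u h1.1 fun D _ hD => ?_)
    have h2 := hcon D (Finset.mem_range.mpr (by omega))
    have h3 : w ≤ |(u : ℝ) - asymThreshold d D * (n : ℝ) ^ d| := by
      by_contra hlt'
      push Not at hlt'
      apply h2
      rw [hB]
      simp only [Finset.mem_filter]
      exact ⟨hu, hlt'⟩
    rcases le_abs.mp h3 with h4 | h4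
    · right
      have h5 : C * (n : ℝ) ^ (d - 1) * 1 ≤ w := by
        rw [hw]
        exact mul_le_mul_of_nonneg_left hlog (by positivity)
      linarith
    · left
      linarith
  have hcB : ∀ D, ((B D).card : ℝ) ≤ 2 * w + 1 := by
    intro D
    apply card_window (B D) (asymThreshold d D * (n : ℝ) ^ d) w hw0
    intro u hu
    rw [hB] at hu
    exact (Finset.mem_filter.mp hu).2
  have h4 := Finset.card_le_card hcover
  have h6 := Finset.card_biUnion_le (s := Finset.range (D₀ + 1)) (t := B)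
  have h7 : (bad.card : ℝ) ≤ ∑ D ∈ Finset.range (D₀ + 1), ((B D).card : ℝ) := by
    exact_mod_cast h4.trans h6
  have h8 : ∑ D ∈ Finset.range (D₀ + 1), ((B D).card : ℝ) ≤ (D₀ + 1) * (2 * w + 1) := by
    calc ∑ D ∈ Finset.range (D₀ + 1), ((B D).card : ℝ) ≤
        ∑ D ∈ Finset.range (D₀ + 1), (2 * w + 1) := Finset.sum_le_sum fun D _ => hcB D
      _ = (D₀ + 1) * (2 * w + 1) := by
          rw [Finset.sum_const, Finset.card_range, nsmul_eq_mul]
          push_cast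
          ring
  have h9 : 1 ≤ (n : ℝ) ^ (d - 1) * Real.log n := by nlinarith
  have h10 : 2 * w + 1 ≤ (2 * C + 1) * ((n : ℝ) ^ (d - 1) * Real.log n) := by
    rw [hw]
    linarith
  calc (bad.card : ℝ) ≤ (D₀ + 1) * (2 * w + 1) := h7.trans h8
    _ ≤ (D₀ + 1) * ((2 * C + 1) * ((n : ℝ) ^ (d - 1) * Real.log n)) :=
        mul_le_mul_of_nonneg_left h10 (by positivity)
    _ = _ := by ring

end Pool.Agent.H21.XF
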