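import Pool.Agent.H21.HD.BridgeA

/-!
# XF, module 1: apolarity, the converse inequality

The codimension of the span of the products of forms with the powers `lin (p i) ^ e` in degree `d` is at
most the dimension of the space of forms of degree `d` with multiplicity `d + 1 - e` at the points `p i`.
-/

set_option autoImplicit false

namespace Pool.Agent.H21.XF

open MvPolynomial Pool.Agent.H18.Fat Pool.Agent.H21.HD
open scoped Classical

open BridgeAX in
/-- Descending Euler induction: if the derivatives of order `m` vanish, so do those of order `≤ m`. -/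
theorem vanish_of_top {n d : ℕ} (q : Fin n → ℂ) (f : mons n d → ℂ) (m : ℕ) (hm : m ≤ d)
    (h : ∀ β : Fin n →₀ ℕ, β.degree = m → coeff β (shift q (toPoly n d f)) = 0) :
    ∀ β : Fin n →₀ ℕ, β.degree ≤ m → coeff β (shift q (toPoly n d f)) = 0 := by
  have key : ∀ t : ℕ, t ≤ m → ∀ β : Fin n →₀ ℕ, β.degree + t = m →
      coeff β (shift q (toPoly n d f)) = 0 := by
    intro t
    induction t with
    | zero =>
      intro _ β hβ
      exact h β hβ
    | succ t ih =>
      intro ht β hβ
      have h1 := coeff_shift_euler q β f
      have h2 : ∑ j, q j * ((β j : ℂ) + 1) *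
          coeff (β + Finsupp.single j 1) (shift q (toPoly n d f)) = 0 := by
        refine Finset.sum_eq_zero fun j _ => ?_
        rw [ih (by omega) (β + Finsupp.single j 1) (by
          simp only [map_add, Finsupp.degree_single]
          omega), mul_zero]
      rw [h2] at h1
      have h3 : ((d : ℂ) - (β.degree : ℂ)) ≠ 0 := by
        rw [sub_ne_zero]
        intro h4
        have h5 : d = β.degree := by exact_mod_cast h4
        omega
      exact (mul_eq_zero.1 h1.symm).resolve_left h3
  intro β hβ
  exact key (m - β.degree) (by omega) β (by omega)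

open BridgeAX in
theorem choose_le_fat_add_powSpan {r : ℕ} {ι : Type} [Fintype ι] (d e : ℕ) (he : e ≤ d)
    (p : ι → Fin (r + 1) → ℂ) :
    (d + r).choose r ≤ Module.finrank ℂ (fatForms r d p (fun _ => d + 1 - e)) +
      Module.finrank ℂ (powSpan d p (fun _ => e)) := by
  have h1 : fatForms r d p (fun _ => d + 1 - e) ≤ homogeneousSubmodule (Fin (r + 1)) ℂ d :=
    fun F hF => hF.1
  rw [← finrank_comap h1, ← finrank_comap (powSpan_le d p (fun _ => e))]
  set W₁ := (fatForms r d p (fun _ => d + 1 - e)).comap (toPoly (r + 1) d) with hW₁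
  set W₂ := (powSpan d p (fun _ => e)).comap (toPoly (r + 1) d) with hW₂
  let u : (mons (r + 1) d → ℂ) →ₗ[ℂ] Module.Dual ℂ (mons (r + 1) d → ℂ) :=
    { toFun := fun f => (pair f).comp (toPoly (r + 1) d)
      map_add' := fun f g => by
        ext x
        simp only [LinearMap.comp_apply, LinearMap.add_apply, pair_apply, Pi.add_apply]
        rw [← Finset.sum_add_distrib]
        exact Finset.sum_congr rfl fun α _ => by ring
      map_smul' := fun c f => by
        ext x
        simp only [LinearMap.comp_apply, LinearMap.smul_apply, pair_apply, Pi.smul_apply,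
          RingHom.id_apply, smul_eq_mul]
        rw [Finset.mul_sum]
        exact Finset.sum_congr rfl fun α _ => by ring }
  have hu : ∀ f x, u f x = pair f (toPoly (r + 1) d x) := fun _ _ => rfl
  have huinj : Function.Injective u := by
    rw [← LinearMap.ker_eq_bot, LinearMap.ker_eq_bot']
    intro f hf
    funext β
    have h2 : u f (Pi.single β 1) = 0 := by rw [hf]; rfl
    rw [hu, pair_apply, Finset.sum_eq_single β] at h2
    · rw [coeff_toPoly, Pi.single_eq_same, mul_one] at h2
      exact (mul_eq_zero.1 h2).resolve_left (fact_ne_zero _)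
    · intro α _ hα
      rw [coeff_toPoly, Pi.single_eq_of_ne hα, mul_zero]
    · intro h
      exact absurd (Finset.mem_univ _) h
  have husurj : Function.Surjective u :=
    (LinearMap.injective_iff_surjective_of_finrank_eq_finrank
      (Subspace.dual_finrank_eq (K := ℂ) (V := mons (r + 1) d → ℂ)).symm).1 huinj
  have hcomap : W₂.dualAnnihilator.comap u ≤ W₁ := by
    intro f hf
    rw [Submodule.mem_comap, Submodule.mem_dualAnnihilator] at hf
    rw [hW₁, Submodule.mem_comap]
    refine ⟨toPoly_isHomogeneous f, fun i β hβ => ?_⟩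
    have hβ' : β.degree < d + 1 - e := hβ
    have hdeg : β.degree ≤ d - e := by omega
    refine vanish_of_top (p i) f (d - e) (by omega) (fun β hβ => ?_) β hdeg
    obtain ⟨x, hx⟩ : ∃ x, toPoly (r + 1) d x = monomial β 1 * lin (p i) ^ e := by
      refine ⟨_, exists_toPoly ?_⟩
      have h3 := (isHomogeneous_monomial (R := ℂ) (1 : ℂ) hβ).mul ((lin_isHomogeneous (p i)).pow e)
      have h4 : d - e + 1 * e = d := by omega
      rwa [h4] at h3
    have h5 : x ∈ W₂ := by
      rw [hW₂, Submodule.mem_comap, hx]
      exact Submodule.subset_span ⟨i, monomial β 1, he, isHomogeneous_monomial _ hβ, rfl⟩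
    have h6 := hf x h5
    rw [hu, hx, pair_monomial_mul_lin_pow (p i) f e β (by omega)] at h6
    exact (mul_eq_zero.1 h6).resolve_left
      (mul_ne_zero (Nat.cast_ne_zero.2 (Nat.factorial_ne_zero _)) (fact_ne_zero _))
  have h5 : Module.finrank ℂ (W₂.dualAnnihilator.comap u) = Module.finrank ℂ W₂.dualAnnihilator := by
    have h6 : (W₂.dualAnnihilator.comap u).map u = W₂.dualAnnihilator :=
      Submodule.map_comap_eq_of_surjective husurj _
    conv_rhs => rw [← h6]
    exact (Submodule.equivMapOfInjective u huinj _).finrank_eq
  have h7 : Module.finrank ℂ (W₂.dualAnnihilator.comap u) ≤ Module.finrank ℂ W₁ :=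
    Submodule.finrank_mono hcomap
  have h8 := Subspace.finrank_add_finrank_dualAnnihilator_eq W₂
  rw [Module.finrank_fintype_fun_eq_card, Fintype.card_coe, card_mons] at h8
  have h9 : (r + d).choose r = (d + r).choose r := by rw [Nat.add_comm]
  omega

end Pool.Agent.H21.XF
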