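import Pool.Agent.H21.XF.Main

/-!
# XF: the window is closed by exactness near the threshold
-/

set_option autoImplicit false

namespace Pool.Agent.H21.XF

open MvPolynomial Pool.Agent.H18.Fat Pool.Agent.H21.HD Pool.Agent.H21 Pool.Agent.H21.NX Pool.Agent.XD

/-- The exponents `C n^(d-1) log n` are eventually smaller than `ε n^d`. -/
theorem log_small (d : ℕ) (hd : 2 ≤ d) (C ε : ℝ) (hε : 0 < ε) : ∃ n₄ : ℕ, ∀ n : ℕ, n₄ ≤ n →
    C * (n : ℝ) ^ (d - 1) * Real.log n ≤ ε * (n : ℝ) ^ d := by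
  have h5 : Filter.Tendsto (fun n : ℕ => C * (Real.log n / (n : ℝ))) Filter.atTop (nhds 0) := by
    have h6 := Real.isLittleO_log_id_atTop.tendsto_div_nhds_zero
    have h7 := (h6.comp tendsto_natCast_atTop_atTop).const_mul C
    rw [mul_zero] at h7
    exact h7
  obtain ⟨n₄, h6⟩ := Filter.eventually_atTop.1 ((h5.eventually_le_const hε).and
    (Filter.eventually_ge_atTop 1))
  refine ⟨n₄, fun n hn => ?_⟩
  obtain ⟨h7, h8⟩ := h6 n hn
  have hn1 : (1 : ℝ) ≤ n := by exact_mod_cast h8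
  have hn0 : (0 : ℝ) < n := by linarith
  have h10 : (n : ℝ) ^ d = n * (n : ℝ) ^ (d - 1) := by
    rw [mul_comm, ← pow_succ]
    congr 1
    omega
  have h11 : C * (n : ℝ) ^ (d - 1) * Real.log n = (C * (Real.log n / n)) * (n * (n : ℝ) ^ (d - 1)) := by
    field_simp
  rw [h10, h11]
  exact mul_le_mul_of_nonneg_right h7 (by positivity)

/-- If the powers of general linear forms are exact in degree `D` near the threshold, then Fröberg's
formula holds in degree `D` for all large `n` and all `u`. -/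
theorem closed_of_near (d D : ℕ) (hd : 2 ≤ d) (hD : d ≤ D) (η : ℝ) (hη : 0 < η)
    (hex : ∃ n₁ : ℕ, ∀ n, n₁ ≤ n → ∀ k : ℕ,
      |(k : ℝ) - asymThreshold d D * (n : ℝ) ^ d| ≤ η * (n : ℝ) ^ d →
      (∀ j < D, 0 < A (fun _ => d) n k j) →
      (FF (fun _ => d) n k D : ℤ) = max (A (fun _ => d) n k D) 0) :
    ∃ n₀ : ℕ, ∀ n, n₀ ≤ n → ∀ u : ℕ, ∀ (K : Type) [Field K] [CharZero K],
      u ≤ Module.finrank K (homogeneousSubmodule (Fin n) K d) → FrobergAt K n d u (D - d) := by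
  obtain ⟨δ, C, hδ, hC, n₁, hn₁, h₁⟩ := sides d D hd hD
  obtain ⟨ρ, hρ⟩ : ∃ ρ, ρ = min δ η := ⟨_, rfl⟩
  have hρ0 : 0 < ρ := by
    rw [hρ]
    exact lt_min hδ hη
  have hρδ : ρ ≤ δ := by
    rw [hρ]
    exact min_le_left _ _
  have hρη : ρ ≤ η := by
    rw [hρ]
    exact min_le_right _ _
  obtain ⟨n₂, h₂⟩ := super_all d D hd hD (asymThreshold d D + ρ)
    (neg_of_thr_lt d D hd hD _ (by linarith))
  obtain ⟨n₃, h₃⟩ := hex
  obtain ⟨n₄, h₄⟩ := log_small d hd C η hη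
  refine ⟨n₁ + n₂ + n₃ + n₄, fun n hn u K _ _ huK => ?_⟩
  obtain ⟨r, rfl⟩ : ∃ r, n = r + 1 := ⟨n - 1, by omega⟩
  have hnd : (0 : ℝ) < ((r + 1 : ℕ) : ℝ) ^ d := by positivity
  rcases le_or_gt (u : ℝ) ((asymThreshold d D + ρ) * ((r + 1 : ℕ) : ℝ) ^ d) with h | h
  · -- the dimension for all `k ≤ u`
    have hk : ∀ k ≤ u, (∀ i < D, 0 < A (fun _ => d) (r + 1) k i) ∧
        (∀ i < D, (FF (fun _ => d) (r + 1) k i : ℤ) = A (fun _ => d) (r + 1) k i) ∧
        (FF (fun _ => d) (r + 1) k D : ℤ) = max (A (fun _ => d) (r + 1) k D) 0 := by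
      intro k hk
      have hku : (k : ℝ) ≤ u := by exact_mod_cast hk
      obtain ⟨h5, _, h6⟩ := h₁ (r + 1) (by omega) k
      have hρn := mul_le_mul_of_nonneg_right hρδ hnd.le
      obtain ⟨h7, h8⟩ := h6 (by linarith)
      refine ⟨h7, h8, ?_⟩
      rcases le_or_gt ((k : ℝ) + C * ((r + 1 : ℕ) : ℝ) ^ (d - 1) * Real.log ((r + 1 : ℕ) : ℝ))
        (asymThreshold d D * ((r + 1 : ℕ) : ℝ) ^ d) with h9 | h9
      · have h11 := h5 (by linarith) D hD le_rfl
        have h12 : 0 ≤ A (fun _ => d) (r + 1) k D := by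
          rw [← h11]
          exact Int.natCast_nonneg _
        rw [h11, max_eq_left h12]
      · refine h₃ (r + 1) (by omega) k ?_ h7
        have h10 := h₄ (r + 1) (by omega)
        have hηn := mul_le_mul_of_nonneg_right hρη hnd.le
        rw [abs_le]
        constructor <;> linarith
    obtain ⟨_, _, hu3⟩ := hk u le_rfl
    rcases lt_or_ge (A (fun _ => d) (r + 1) u D) 0 with h5 | h5
    · rw [max_eq_right h5.le] at hu3
      rw [A_eq_ser (by omega) (by omega)] at h5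
      exact froberg_super hD (by omega) (by exact_mod_cast hu3) ⟨D, le_rfl, h5⟩ K huK
    · refine froberg_of_systems (by omega) (by omega) fun k hku => ?_
      rw [Nat.sub_add_cancel hD]
      refine systems (by omega) (fun i hi hi' => ?_) K
      obtain ⟨h6, h7, h8⟩ := hk k hku
      rcases lt_or_eq_of_le hi' with h9 | rfl
      · exact h7 i h9
      · rw [h8, max_eq_left]
        have he1 : ∀ _s : ℕ, 1 ≤ (fun _ : ℕ => d) _s := fun _ => by
          show 1 ≤ d
          omega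
        refine h5.trans (A_anti_t he1 (T := u) (D := i) (fun j hj => ?_) hku le_rfl)
        exact ((hk u le_rfl).1 j hj).le
  · exact h₂ (r + 1) (by omega) u h.le K huK (D - d) (by omega)

/-- Fröberg's conjecture in every degree for all `u ≥ a n^d` and all large `n`, if every window is
closed. -/
theorem froberg_all_of_closed (d : ℕ) (hd : 2 ≤ d)
    (hP : ∀ D, d ≤ D → ∃ n₀ : ℕ, ∀ n, n₀ ≤ n → ∀ u : ℕ, ∀ (K : Type) [Field K] [CharZero K],
      u ≤ Module.finrank K (homogeneousSubmodule (Fin n) K d) → FrobergAt K n d u (D - d))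
    (a : ℝ) (ha : 0 < a) :
    ∃ n₀ : ℕ, ∀ n, n₀ ≤ n → ∀ u : ℕ, a * (n : ℝ) ^ d ≤ (u : ℝ) → FrobergAll n d u := by
  obtain ⟨Dm, hDm, hlt⟩ := thr_small d hd a ha
  obtain ⟨n₁, h₁⟩ := super_all d Dm hd hDm a
    (neg_of_thr_lt d Dm hd hDm _ hlt)
  have hP' : ∀ D, ∃ n₀ : ℕ, d ≤ D → ∀ n, n₀ ≤ n → ∀ u : ℕ,
      ∀ (K : Type) [Field K] [CharZero K],
      u ≤ Module.finrank K (homogeneousSubmodule (Fin n) K d) → FrobergAt K n d u (D - d) := by
    intro D
    by_cases hD : d ≤ D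
    · obtain ⟨n₀, h⟩ := hP D hD
      exact ⟨n₀, fun _ => h⟩
    · exact ⟨0, fun h => absurd h hD⟩
  choose pf hpf using hP'
  refine ⟨n₁ + ∑ D ∈ Finset.range (Dm + 1), pf D, fun n hn u hu K _ _ huK j => ?_⟩
  rcases Nat.lt_or_ge (j + d) (Dm + 1) with hj | hj
  · have := Finset.single_le_sum (f := pf) (fun i _ => Nat.zero_le _)
      (Finset.mem_range.mpr hj)
    have h2 := hpf (j + d) (by omega) n (by omega) u K huK
    rwa [Nat.add_sub_cancel] at h2
  · exact h₁ n (by omega) u hu K huK j (by omega)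

end Pool.Agent.H21.XF
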