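import Pool.Agent.H21.NX.Defs

/-!
# XF, module 2: rational general points
-/

set_option autoImplicit false

namespace Pool.Agent.H21.XF

open MvPolynomial Pool.Agent.H18.Fat Pool.Agent.H21.NX

/-- A nonzero polynomial over `ℂ` has a rational point of nonvanishing. -/
theorem exists_rat_point {σ : Type} {G : MvPolynomial σ ℂ} (hG : G ≠ 0) :
    ∃ x : σ → ℚ, eval (fun s => (x s : ℂ)) G ≠ 0 := by
  by_contra hcon
  push Not at hcon
  apply hG
  apply MvPolynomial.funext_set (fun _ : σ => Set.range (fun q : ℚ => (q : ℂ)))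
    (fun _ => Set.infinite_range_of_injective Rat.cast_injective)
  intro x hx
  choose y hy using fun s => hx s (Set.mem_univ s)
  have h1 : x = fun s => ((y s : ℚ) : ℂ) := by
    funext s
    exact (hy s).symm
  rw [h1, hcon y, map_zero]

theorem exists_rat_gen {r : ℕ} {κ : Type} {P : (κ → Fin (r + 1) → ℂ) → Prop} (h : Gen r κ P) :
    ∃ q : κ → Fin (r + 1) → ℚ, P fun i j => (q i j : ℂ) := by
  obtain ⟨G, hG, h⟩ := h
  obtain ⟨x, hx⟩ := exists_rat_point hG
  exact ⟨fun i j => x (i, j), h _ hx⟩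

end Pool.Agent.H21.XF
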