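import Pool.Agent.H21.SubFinal
import Pool.Agent.H21.XF.Apo
import Pool.Agent.H21.XF.Rat

/-!
# XF, module 3: powers of rational linear forms
-/

set_option autoImplicit false

namespace Pool.Agent.H21.XF

open MvPolynomial Pool.Agent.H18.Fat Pool.Agent.H21.HD Pool.Agent.H21
open scoped Classical

/-- The power of the linear form with rational coefficients. -/
noncomputable def qpow {n : ℕ} (d : ℕ) (q : Fin n → ℚ) : MvPolynomial (Fin n) ℚ :=
  (∑ s, C (q s) * X s) ^ d

theorem qpow_hom {n : ℕ} (d : ℕ) (q : Fin n → ℚ) : (qpow d q).IsHomogeneous d := by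
  have h1 : (∑ s, C (q s) * X s : MvPolynomial (Fin n) ℚ).IsHomogeneous 1 :=
    IsHomogeneous.sum _ _ _ fun s _ => isHomogeneous_C_mul_X _ _
  have h2 := h1.pow d
  rw [one_mul] at h2
  exact h2

theorem map_qpow {n : ℕ} (d : ℕ) (q : Fin n → ℚ) :
    MvPolynomial.map (algebraMap ℚ ℂ) (qpow d q) = lin (fun s => (q s : ℂ)) ^ d := by
  unfold qpow lin
  rw [map_pow, map_sum]
  congr 1
  refine Finset.sum_congr rfl fun s _ => ?_
  rw [map_mul, map_C, map_X]
  rfl

/-- The span of the powers. -/
noncomputable def qV {n k : ℕ} (d : ℕ) (q : Fin k → Fin n → ℚ) :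
    Submodule ℚ (MvPolynomial (Fin n) ℚ) :=
  Submodule.span ℚ (Set.range fun l => qpow d (q l))

theorem qV_le {n k : ℕ} (d : ℕ) (q : Fin k → Fin n → ℚ) :
    qV d q ≤ homogeneousSubmodule (Fin n) ℚ d := by
  unfold qV
  rw [Submodule.span_le]
  rintro _ ⟨l, rfl⟩
  exact (mem_homogeneousSubmodule _ _).2 (qpow_hom d (q l))

theorem powSpan_le_bc {n k d e : ℕ} (q : Fin k → Fin n → ℚ) :
    powSpan (e + d) (fun l s => (q l s : ℂ)) (fun _ => d) ≤ bc (K := ℂ) (prodSpan e (qV d q)) := by
  unfold powSpan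
  rw [Submodule.span_le]
  rintro _ ⟨l, g, _, hg, rfl⟩
  rw [Nat.add_sub_cancel] at hg
  have h1 : g ∈ bc (K := ℂ) (homogeneousSubmodule (Fin n) ℚ e) := homogeneous_le_bc n e hg
  rw [SetLike.mem_coe]
  unfold bc at h1
  rw [← map_qpow]
  refine Submodule.span_induction ?_ ?_ ?_ ?_ h1
  · rintro _ ⟨x, hx, rfl⟩
    rw [← map_mul]
    apply Submodule.subset_span
    refine ⟨x * qpow d (q l), ?_, rfl⟩
    exact mul_mem_prodSpan hx (Submodule.subset_span ⟨l, rfl⟩)
  · rw [zero_mul]
    exact Submodule.zero_mem _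
  · intro x y _ _ hx hy
    rw [add_mul]
    exact Submodule.add_mem _ hx hy
  · intro c x _ hx
    rw [smul_mul_assoc]
    exact Submodule.smul_mem _ c hx

/-- The codimension of the ideal of the powers over `ℚ` is at most the dimension of the space of the
forms vanishing at the points. -/
theorem choose_le_qV {r k d e : ℕ} (q : Fin k → Fin (r + 1) → ℚ) :
    (e + d + r).choose r ≤ Module.finrank ℂ (fatForms r (e + d) (fun l s => (q l s : ℂ))
      (fun _ => e + d + 1 - d)) + Module.finrank ℚ (prodSpan e (qV d q)) := by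
  have h1 := choose_le_fat_add_powSpan (e + d) d (by omega) (fun l s => ((q l s : ℚ) : ℂ))
  have hfin : FiniteDimensional ℚ (prodSpan e (qV d q)) :=
    Submodule.finiteDimensional_of_le (prodSpan_le (qV_le d q))
  have hfin2 : FiniteDimensional ℂ (bc (K := ℂ) (prodSpan e (qV d q))) :=
    Submodule.finiteDimensional_of_le (bc_le_homogeneous (prodSpan_le (qV_le d q)))
  have h2 := Submodule.finrank_mono (powSpan_le_bc (d := d) (e := e) q)
  have h3 := finrank_bc_le (K := ℂ) (prodSpan e (qV d q))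
  omega

/-- Rational systems give systems over `K`. -/
theorem exists_over' {K : Type} [Field K] [CharZero K] {n d k D : ℕ}
    (f : Fin k → MvPolynomial (Fin n) ℚ) (hf : ∀ l, (f l).IsHomogeneous d)
    (hH : ∀ e, e + d ≤ D → (Module.finrank ℚ (homogeneousSubmodule (Fin n) ℚ (e + d)) : ℤ) ≤
      serCoeff n d k (e + d) +
        (Module.finrank ℚ (prodSpan e (Submodule.span ℚ (Set.range f))) : ℤ)) :
    ∃ g : Fin k → Fd K n d, ∀ e, e + d ≤ D → cd g k (e + d) ≤ serCoeff n d k (e + d) := by
  let g : Fin k → Fd K n d := fun l => ⟨MvPolynomial.map (algebraMap ℚ K) (f l), by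
    rw [mem_homogeneousSubmodule]
    exact (hf l).map _⟩
  refine ⟨g, fun e he => ?_⟩
  have hH' := hH e he
  unfold cd
  rw [if_pos (Nat.le_add_left d e), Nat.add_sub_cancel]
  set V := Submodule.span ℚ (Set.range f) with hV
  have hVd : V ≤ homogeneousSubmodule (Fin n) ℚ d := by
    rw [hV, Submodule.span_le]
    rintro _ ⟨l, rfl⟩
    exact (mem_homogeneousSubmodule _ _).mpr (hf l)
  have h1 : bc (K := K) V ≤ Submodule.span K ((fun i => (g i).1) '' {i : Fin k | i.1 < k}) := by
    refine bc_span_le.trans ?_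
    rw [Submodule.span_le]
    rintro _ ⟨_, ⟨l, rfl⟩, rfl⟩
    exact Submodule.subset_span ⟨l, l.2, rfl⟩
  have hVg : Submodule.span K ((fun i => (g i).1) '' {i : Fin k | i.1 < k}) ≤
      homogeneousSubmodule (Fin n) K d := by
    rw [Submodule.span_le]
    rintro _ ⟨l, _, rfl⟩
    exact (g l).2
  have h2 : bc (K := K) (prodSpan e V) ≤
      prodSpan e (Submodule.span K ((fun i => (g i).1) '' {i : Fin k | i.1 < k})) :=
    (bc_prodSpan_le V).trans (prodSpan_mono h1)
  have hfin : FiniteDimensional K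
      (prodSpan e (Submodule.span K ((fun i => (g i).1) '' {i : Fin k | i.1 < k}))) :=
    Submodule.finiteDimensional_of_le (prodSpan_le hVg)
  have h3 := Submodule.finrank_mono h2
  have h4 := finrank_bc_ge (K := K) (prodSpan_le (e := e) hVd)
  have h5 : Module.finrank K (Fd K n (e + d)) =
      Module.finrank ℚ (homogeneousSubmodule (Fin n) ℚ (e + d)) := by
    rw [finrank_forms, finrank_forms]
  have h6 : (Module.finrank ℚ (prodSpan e V) : ℤ) ≤ (Module.finrank K
      (prodSpan e (Submodule.span K ((fun i => (g i).1) '' {i : Fin k | i.1 < k}))) : ℤ) := by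
    exact_mod_cast h4.trans h3
  rw [h5]
  linarith

end Pool.Agent.H21.XF
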