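import Pool.Agent.H21.XF.Quad
import Pool.Agent.H21.XF.Closed
import Pool.Agent.GD.Fin.Zero

/-!
# XF, module 10: all degrees, from the complete answer for large `n`

`Pool.Agent.GD.FIN.complete_of_target` with all multiplicities equal to `D + 1 - d`.
-/

set_option autoImplicit false

namespace Pool.Agent.H21.XF

open MvPolynomial Pool.Agent.H18.Fat Pool.Agent.H21.HD Pool.Agent.H21 Pool.Agent.H21.NX Pool.Agent.XD
open scoped Classical

/-- The powers of general linear forms. -/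
theorem exact_of_target (hT : Pool.Agent.GD.TargetZero) (d D : ℕ) (hd : 2 ≤ d) (hD : d ≤ D) :
    ∃ n₁ T : ℕ, ∀ n, n₁ ≤ n → ∀ k, T ≤ k → (∀ j < D, 0 < A (fun _ => d) n k j) →
      (FF (fun _ => d) n k D : ℤ) = max (A (fun _ => d) n k D) 0 := by
  obtain ⟨n₀, h⟩ := Pool.Agent.GD.FIN.complete_of_target hT D
  refine ⟨n₀ + 1, 0, fun n hn k _ hpos => ?_⟩
  obtain ⟨r, rfl⟩ : ∃ r, n = r + 1 := ⟨n - 1, by omega⟩
  have hdd : ∀ s : Fin k, D + 1 - (D + 1 - d) = (fun _ : ℕ => d) s := fun _ => by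
    show D + 1 - (D + 1 - d) = d
    omega
  have hfro : ∀ j, fro r (fun _ : Fin k => D + 1 - (D + 1 - d)) Finset.univ j =
      A (fun _ => d) (r + 1) k j := by
    intro j
    rw [← fro_eq_A (fun _ => d) r k j]
    congr 1
    funext s
    exact hdd s
  have hcD : (Finset.univ.filter fun _ : Fin k => D + 1 - d = D).card = 0 := by
    rw [Finset.card_eq_zero, Finset.filter_eq_empty_iff]
    intro i _ h
    omega
  obtain ⟨h1, h2⟩ := h r k (fun _ => D + 1 - d) (fun _ => by omega) (r + 1) (by rw [hcD]) (by omega)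
  have h3 : Gen r (Fin k) fun p =>
      Module.finrank ℂ (fatForms r D p fun _ => D + 1 - d) = FF (fun _ => d) (r + 1) k D :=
    gen_gdim r D fun _ : Fin k => D + 1 - d
  by_cases hA : 0 < A (fun _ => d) (r + 1) k D
  · have h4 : Gen r (Fin k) fun p =>
        (Module.finrank ℂ (fatForms r D p fun _ => D + 1 - d) : ℤ) =
          fro r (fun _ : Fin k => D + 1 - (D + 1 - d)) Finset.univ D := h2 (fun j hj => by
      rw [hfro j]
      rcases Nat.lt_or_eq_of_le hj with hj | rfl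
      · exact hpos j hj
      · exact hA)
    obtain ⟨p, hp1, hp2⟩ := Gen.exists (h3.and h4)
    rw [← hp1, hp2, hfro, max_eq_left hA.le]
  · have h4 : Gen r (Fin k) fun p =>
        Module.finrank ℂ (fatForms r D p fun _ => D + 1 - d) = 0 := h1 (fun h5 => hA (by
      rw [← hfro]
      exact h5 D le_rfl))
    obtain ⟨p, hp1, hp2⟩ := Gen.exists (h3.and h4)
    rw [← hp1, hp2, Nat.cast_zero, max_eq_right (not_lt.1 hA)]

/-- Fröberg's formula in a fixed degree for all large `n` and all `u`. -/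
theorem closed_of_target (hT : Pool.Agent.GD.TargetZero) (d D : ℕ) (hd : 2 ≤ d) (hD : d ≤ D) :
    ∃ n₀ : ℕ, ∀ n, n₀ ≤ n → ∀ u : ℕ, ∀ (K : Type) [Field K] [CharZero K],
      u ≤ Module.finrank K (homogeneousSubmodule (Fin n) K d) → FrobergAt K n d u (D - d) :=
  closed_of_exact d D hd hD (exact_of_target hT d D hd hD)

/-- All degrees for `u ≥ a n^d` and all large `n`. -/
theorem all_of_target (hT : Pool.Agent.GD.TargetZero) (d : ℕ) (hd : 2 ≤ d) (a : ℝ) (ha : 0 < a) :
    ∃ n₀ : ℕ, ∀ n, n₀ ≤ n → ∀ u : ℕ, a * (n : ℝ) ^ d ≤ (u : ℝ) → FrobergAll n d u :=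
  froberg_all_of_closed d hd (fun D hD => closed_of_target hT d D hd hD) a ha

end Pool.Agent.H21.XF
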