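import Pool.Agent.H21.Numeric

/-!
# XF, module 5: the coefficients up to an error `O(1 / n)`

For `u ≤ M n^d` the coefficient of `z^i` in `(1 - z^d)^u / (1 - z)^n`, divided by `n^i`, differs from
`h_i (u / n^d)` by `O(1 / n)`.
-/

set_option autoImplicit false

namespace Pool.Agent.H21.XF

open Pool.Agent.H21

/-- `F n u = G n u + O(1 / n)` and `G n u = O(1)` for `u ≤ M n^d`. -/
def Near (M : ℝ) (d : ℕ) (F G : ℕ → ℕ → ℝ) : Prop :=
  ∃ C : ℝ, 0 ≤ C ∧ ∀ n u : ℕ, 1 ≤ n → (u : ℝ) ≤ M * (n : ℝ) ^ d →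
    |F n u - G n u| ≤ C / n ∧ |G n u| ≤ C

theorem Near.mono {M : ℝ} {d : ℕ} {F G F' G' : ℕ → ℕ → ℝ} (h : Near M d F G)
    (hF : ∀ n u, 1 ≤ n → F' n u = F n u) (hG : ∀ n u, 1 ≤ n → G' n u = G n u) : Near M d F' G' := by
  obtain ⟨C, hC, h⟩ := h
  refine ⟨C, hC, fun n u hn hu => ?_⟩
  rw [hF n u hn, hG n u hn]
  exact h n u hn hu

theorem Near.const (M : ℝ) (d : ℕ) (c : ℝ) : Near M d (fun _ _ => c) (fun _ _ => c) :=
  ⟨|c|, abs_nonneg c, fun n u hn _ => by
    have h1 : (0 : ℝ) ≤ |c| / n := by positivity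
    simpa using h1⟩

theorem Near.add {M : ℝ} {d : ℕ} {F G F' G' : ℕ → ℕ → ℝ} (h : Near M d F G) (h' : Near M d F' G') :
    Near M d (fun n u => F n u + F' n u) (fun n u => G n u + G' n u) := by
  obtain ⟨C, hC, h⟩ := h
  obtain ⟨C', hC', h'⟩ := h'
  refine ⟨C + C', by positivity, fun n u hn hu => ?_⟩
  obtain ⟨h1, h2⟩ := h n u hn hu
  obtain ⟨h3, h4⟩ := h' n u hn hu
  constructor
  · have h5 : F n u + F' n u - (G n u + G' n u) = (F n u - G n u) + (F' n u - G' n u) := by ring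
    rw [h5, add_div]
    exact (abs_add_le _ _).trans (add_le_add h1 h3)
  · exact (abs_add_le _ _).trans (add_le_add h2 h4)

theorem Near.sum {M : ℝ} {d : ℕ} {ι : Type} (s : Finset ι) {F G : ι → ℕ → ℕ → ℝ}
    (h : ∀ i ∈ s, Near M d (F i) (G i)) :
    Near M d (fun n u => ∑ i ∈ s, F i n u) (fun n u => ∑ i ∈ s, G i n u) := by
  classical
  induction s using Finset.induction_on with
  | empty => simpa using Near.const M d 0
  | insert a s ha ih =>
    have h1 := h a (Finset.mem_insert_self a s)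
    have h2 := ih fun i hi => h i (Finset.mem_insert_of_mem hi)
    exact (h1.add h2).mono (fun n u _ => Finset.sum_insert ha) (fun n u _ => Finset.sum_insert ha)

theorem Near.mul {M : ℝ} {d : ℕ} {F G F' G' : ℕ → ℕ → ℝ} (h : Near M d F G) (h' : Near M d F' G') :
    Near M d (fun n u => F n u * F' n u) (fun n u => G n u * G' n u) := by
  obtain ⟨C, hC, h⟩ := h
  obtain ⟨C', hC', h'⟩ := h'
  refine ⟨3 * (C * C'), by positivity, fun n u hn hu => ?_⟩
  obtain ⟨h1, h2⟩ := h n u hn hu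
  obtain ⟨h3, h4⟩ := h' n u hn hu
  have hn1 : (1 : ℝ) ≤ n := by exact_mod_cast hn
  have hn0 : (0 : ℝ) < n := by linarith
  have h0 : (0 : ℝ) ≤ C * C' := by positivity
  constructor
  · have h5 : F n u * F' n u - G n u * G' n u =
        (F n u - G n u) * (F' n u - G' n u) + (F n u - G n u) * G' n u +
          G n u * (F' n u - G' n u) := by ring
    rw [h5]
    have h6 : |(F n u - G n u) * (F' n u - G' n u)| ≤ C / n * (C' / n) := by
      rw [abs_mul]
      exact mul_le_mul h1 h3 (abs_nonneg _) (by positivity)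
    have h7 : |(F n u - G n u) * G' n u| ≤ C / n * C' := by
      rw [abs_mul]
      exact mul_le_mul h1 h4 (abs_nonneg _) (by positivity)
    have h8 : |G n u * (F' n u - G' n u)| ≤ C * (C' / n) := by
      rw [abs_mul]
      exact mul_le_mul h2 h3 (abs_nonneg _) hC
    have h9 : C / n * (C' / n) ≤ C * C' / n := by
      rw [div_mul_div_comm]
      refine div_le_div_of_nonneg_left h0 hn0 ?_
      nlinarith
    have h10 := abs_add_three ((F n u - G n u) * (F' n u - G' n u)) ((F n u - G n u) * G' n u)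
      (G n u * (F' n u - G' n u))
    calc _ ≤ _ := h10
      _ ≤ C * C' / n + C / n * C' + C * (C' / n) := by linarith
      _ = 3 * (C * C') / n := by ring
  · rw [abs_mul]
    calc |G n u| * |G' n u| ≤ C * C' := mul_le_mul h2 h4 (abs_nonneg _) hC
      _ ≤ 3 * (C * C') := by linarith

private theorem near_sub {M : ℝ} (hM : 0 ≤ M) {d : ℕ} (hd : 1 ≤ d) (k : ℕ) :
    Near M d (fun n u => ((u - k : ℕ) : ℝ) / (n : ℝ) ^ d) (fun n u => (u : ℝ) / (n : ℝ) ^ d) := by
  refine ⟨M + k, by positivity, fun n u hn hu => ?_⟩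
  have hn1 : (1 : ℝ) ≤ n := by exact_mod_cast hn
  have hn0 : (0 : ℝ) < n := by linarith
  have hnd : (0 : ℝ) < (n : ℝ) ^ d := by positivity
  constructor
  · rw [← sub_div, abs_div, abs_of_pos hnd]
    have h1 : |((u - k : ℕ) : ℝ) - (u : ℝ)| ≤ k := by
      have h2 : u - k ≤ u := Nat.sub_le _ _
      have h3 : u ≤ (u - k) + k := by omega
      have h4 : ((u - k : ℕ) : ℝ) ≤ u := by exact_mod_cast h2
      have h5 : (u : ℝ) ≤ ((u - k : ℕ) : ℝ) + k := by exact_mod_cast h3
      rw [abs_le]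
      constructor <;> linarith
    have h6 : (n : ℝ) ≤ (n : ℝ) ^ d := by
      calc (n : ℝ) = (n : ℝ) ^ 1 := (pow_one _).symm
        _ ≤ (n : ℝ) ^ d := pow_le_pow_right₀ hn1 hd
    calc |((u - k : ℕ) : ℝ) - (u : ℝ)| / (n : ℝ) ^ d ≤ k / (n : ℝ) ^ d :=
          div_le_div_of_nonneg_right h1 hnd.le
      _ ≤ k / n := div_le_div_of_nonneg_left (Nat.cast_nonneg k) hn0 h6
      _ ≤ (M + k) / n := div_le_div_of_nonneg_right (by linarith) hn0.le
  · rw [abs_of_nonneg (by positivity), div_le_iff₀ hnd]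
    have : (0 : ℝ) ≤ k * (n : ℝ) ^ d := by positivity
    linarith

private theorem near_desc {M : ℝ} (hM : 0 ≤ M) {d : ℕ} (hd : 1 ≤ d) (k : ℕ) :
    Near M d (fun n u => (u.descFactorial k : ℝ) / ((n : ℝ) ^ d) ^ k)
      (fun n u => ((u : ℝ) / (n : ℝ) ^ d) ^ k) := by
  induction k with
  | zero => exact (Near.const M d 1).mono (fun n u _ => by simp) (fun n u _ => by simp)
  | succ k ih =>
    refine ((near_sub hM hd k).mul ih).mono (fun n u _ => ?_) (fun n u _ => by rw [pow_succ'])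
    rw [Nat.descFactorial_succ, pow_succ' ((n : ℝ) ^ d) k]
    push_cast
    rw [div_mul_div_comm]

private theorem near_choose_u {M : ℝ} (hM : 0 ≤ M) {d : ℕ} (hd : 1 ≤ d) (k : ℕ) :
    Near M d (fun n u => (u.choose k : ℝ) / ((n : ℝ) ^ d) ^ k)
      (fun n u => ((u : ℝ) / (n : ℝ) ^ d) ^ k / (k.factorial : ℝ)) := by
  refine ((near_desc hM hd k).mul (Near.const M d (1 / (k.factorial : ℝ)))).mono
    (fun n u _ => ?_) (fun n u _ => by ring)
  rw [Nat.descFactorial_eq_factorial_mul_choose]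
  push_cast
  have : (k.factorial : ℝ) ≠ 0 := by positivity
  field_simp

private theorem near_asc (M : ℝ) (d k : ℕ) :
    Near M d (fun n _ => (n.ascFactorial k : ℝ) / (n : ℝ) ^ k) (fun _ _ => 1) := by
  induction k with
  | zero => exact (Near.const M d 1).mono (fun n u _ => by simp) (fun n u _ => rfl)
  | succ k ih =>
    have h1 : Near M d (fun n _ => ((n : ℝ) + k) / (n : ℝ)) (fun _ _ => 1) := by
      refine ⟨1 + k, by positivity, fun n u hn _ => ?_⟩
      have hn0 : (0 : ℝ) < n := by exact_mod_cast hn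
      constructor
      · have h2 : ((n : ℝ) + k) / n - 1 = k / n := by
          field_simp
          ring
        rw [h2, abs_of_nonneg (by positivity)]
        exact div_le_div_of_nonneg_right (by linarith) hn0.le
      · rw [abs_one]
        have : (0 : ℝ) ≤ k := Nat.cast_nonneg k
        linarith
    refine (h1.mul ih).mono (fun n u _ => ?_) (fun n u _ => by ring)
    rw [Nat.ascFactorial_succ, pow_succ']
    push_cast
    rw [div_mul_div_comm]

private theorem near_choose_n (M : ℝ) (d k : ℕ) :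
    Near M d (fun n _ => ((n - 1 + k).choose (n - 1) : ℝ) / (n : ℝ) ^ k)
      (fun _ _ => 1 / (k.factorial : ℝ)) := by
  refine ((near_asc M d k).mul (Near.const M d (1 / (k.factorial : ℝ)))).mono
    (fun n u hn => ?_) (fun n u _ => by ring)
  have h2 : (n - 1 + k).choose (n - 1) = (n + k - 1).choose k := by
    rw [show n - 1 + k = n + k - 1 by omega]
    rw [← Nat.choose_symm (show k ≤ n + k - 1 by omega)]
    congr 1
    omega
  rw [h2, Nat.ascFactorial_eq_factorial_mul_choose']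
  push_cast
  have : (k.factorial : ℝ) ≠ 0 := by positivity
  field_simp

theorem near_ser {M : ℝ} (hM : 0 ≤ M) {d : ℕ} (hd : 1 ≤ d) (i : ℕ) :
    Near M d (fun n u => (serCoeff n d u i : ℝ) / (n : ℝ) ^ i)
      (fun n u => expCoeff d i ((u : ℝ) / (n : ℝ) ^ d)) := by
  have key : Near M d (fun n u => ∑ k ∈ Finset.range (i + 1),
      (if d * k ≤ i then (-1 : ℝ) ^ k * (((u.choose k : ℝ) / ((n : ℝ) ^ d) ^ k) *
        (((n - 1 + (i - d * k)).choose (n - 1) : ℝ) / (n : ℝ) ^ (i - d * k))) else 0))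
      (fun n u => ∑ k ∈ Finset.range (i + 1), (if d * k ≤ i then (-1 : ℝ) ^ k *
        ((((u : ℝ) / (n : ℝ) ^ d) ^ k / (k.factorial : ℝ)) *
          (1 / ((i - d * k).factorial : ℝ))) else 0)) := by
    refine Near.sum (Finset.range (i + 1)) (F := fun k n u =>
      (if d * k ≤ i then (-1 : ℝ) ^ k * (((u.choose k : ℝ) / ((n : ℝ) ^ d) ^ k) *
        (((n - 1 + (i - d * k)).choose (n - 1) : ℝ) / (n : ℝ) ^ (i - d * k))) else 0))
      (G := fun k n u => (if d * k ≤ i then (-1 : ℝ) ^ k *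
        ((((u : ℝ) / (n : ℝ) ^ d) ^ k / (k.factorial : ℝ)) *
          (1 / ((i - d * k).factorial : ℝ))) else 0)) fun k _ => ?_
    by_cases h : d * k ≤ i
    · simp only [if_pos h]
      exact (Near.const M d ((-1) ^ k)).mul ((near_choose_u hM hd k).mul (near_choose_n M d (i - d * k)))
    · simp only [if_neg h]
      exact Near.const M d 0
  refine key.mono (fun n u hn => ?_) (fun n u hn => ?_)
  · rw [fc_eq n d u i hd]
    push_cast
    rw [Finset.sum_div]
    refine Finset.sum_congr rfl fun k _ => ?_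
    by_cases h : d * k ≤ i
    · simp only [if_pos h]
      have h4 : n - 1 + i - d * k = n - 1 + (i - d * k) := by omega
      have h5 : (n : ℝ) ^ i = ((n : ℝ) ^ d) ^ k * (n : ℝ) ^ (i - d * k) := by
        rw [← pow_mul, ← pow_add]
        congr 1
        omega
      rw [h4, h5, div_mul_div_comm, mul_assoc, mul_div_assoc]
    · simp only [if_neg h, mul_zero, zero_div]
  · rw [hh_eq d i hd]
    refine Finset.sum_congr rfl fun k _ => ?_
    by_cases h : d * k ≤ i
    · simp only [if_pos h]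
      rw [neg_pow]
      have h1 : (k.factorial : ℝ) ≠ 0 := by positivity
      have h2 : ((i - d * k).factorial : ℝ) ≠ 0 := by positivity
      field_simp
    · simp only [if_neg h]

/-- The form used. -/
theorem ser_rate (d : ℕ) (hd : 1 ≤ d) (i : ℕ) (M : ℝ) (hM : 0 ≤ M) : ∃ C : ℝ, 0 ≤ C ∧
    ∀ n u : ℕ, 1 ≤ n → (u : ℝ) ≤ M * (n : ℝ) ^ d →
      |(serCoeff n d u i : ℝ) - expCoeff d i ((u : ℝ) / (n : ℝ) ^ d) * (n : ℝ) ^ i| ≤
        C * (n : ℝ) ^ i / n := by
  obtain ⟨C, hC, h⟩ := near_ser hM hd i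
  refine ⟨C, hC, fun n u hn hu => ?_⟩
  have h1 := (h n u hn hu).1
  have hn0 : (0 : ℝ) < n := by exact_mod_cast hn
  have hni : (0 : ℝ) < (n : ℝ) ^ i := by positivity
  have h2 : (serCoeff n d u i : ℝ) - expCoeff d i ((u : ℝ) / (n : ℝ) ^ d) * (n : ℝ) ^ i =
      ((serCoeff n d u i : ℝ) / (n : ℝ) ^ i - expCoeff d i ((u : ℝ) / (n : ℝ) ^ d)) * (n : ℝ) ^ i := by
    rw [sub_mul, div_mul_cancel₀ _ hni.ne']
  rw [h2, abs_mul, abs_of_pos hni]
  calc _ ≤ C / n * (n : ℝ) ^ i := mul_le_mul_of_nonneg_right h1 hni.le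
    _ = C * (n : ℝ) ^ i / n := by ring

end Pool.Agent.H21.XF
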