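import Pool.Agent.H21.Threshold

/-!
# XF, module 6: the limit functions near the threshold

At `t = asymThreshold d D`: `h_i > 0` for `i < D` and `h_D = 0`.
-/

set_option autoImplicit false

namespace Pool.Agent.H21.XF

open Pool.Agent.H21 Filter Topology

theorem thr_nonneg_at (d D : ℕ) (hd : 2 ≤ d) (hD : d ≤ D) :
    ∀ i ≤ D, 0 ≤ expCoeff d i (asymThreshold d D) := by
  intro i hi
  by_contra hcon
  push Not at hcon
  have ht := thr_pos d D hd hD
  have h1 : ∀ᶠ x in 𝓝 (asymThreshold d D), expCoeff d i x < 0 :=
    (continuous_hh d i).continuousAt.eventually_lt continuousAt_const hcon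
  obtain ⟨δ, hδ, h2⟩ := Metric.eventually_nhds_iff.mp h1
  have h3 := h2 (y := max 0 (asymThreshold d D - δ / 2)) (by
    rw [Real.dist_eq, abs_lt]
    constructor
    · have := le_max_right 0 (asymThreshold d D - δ / 2)
      linarith
    · have : max 0 (asymThreshold d D - δ / 2) < asymThreshold d D + δ :=
        max_lt (by linarith) (by linarith)
      linarith)
  have h4 := pos_of_lt_thr d D (by omega) (max 0 (asymThreshold d D - δ / 2)) (le_max_left _ _)
    (max_lt ht (by linarith)) i hi
  linarith

theorem thr_pos_at (d D : ℕ) (hd : 2 ≤ d) (hD : d ≤ D) :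
    ∀ i < D, 0 < expCoeff d i (asymThreshold d D) := by
  have hnn := thr_nonneg_at d D hd hD
  have ht := thr_pos d D hd hD
  intro i
  induction i using Nat.strong_induction_on with
  | _ i ih =>
    intro hi
    by_contra hcon
    push Not at hcon
    have h0 : expCoeff d i (asymThreshold d D) = 0 := le_antisymm hcon (hnn i hi.le)
    have hid : d ≤ i := by
      by_contra hlt
      push Not at hlt
      rw [expCoeff_small d i hlt] at h0
      have : (0 : ℝ) < 1 / (i.factorial : ℝ) := by positivity
      linarith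
    have h1 := hh_succ d i (by omega) (asymThreshold d D)
    rw [h0, if_pos (by omega)] at h1
    have h2 := ih (i + 1 - d) (by omega) (by omega)
    have h3 := hnn (i + 1) (by omega)
    have h4 : (0 : ℝ) < asymThreshold d D * d * expCoeff d (i + 1 - d) (asymThreshold d D) := by
      have : (0 : ℝ) < d := by exact_mod_cast (by omega : 0 < d)
      positivity
    have h5 : (0 : ℝ) ≤ ((i + 1 : ℕ) : ℝ) * expCoeff d (i + 1) (asymThreshold d D) := by
      positivity
    linarith

theorem thr_zero_at (d D : ℕ) (hd : 2 ≤ d) (hD : d ≤ D) : expCoeff d D (asymThreshold d D) = 0 := by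
  refine le_antisymm ?_ (thr_nonneg_at d D hd hD D le_rfl)
  by_contra hcon
  push Not at hcon
  have h1 : ∀ᶠ x in 𝓝 (asymThreshold d D), ∀ i ∈ Finset.range (D + 1), 0 < expCoeff d i x := by
    rw [Filter.eventually_all_finset]
    intro i hi
    rw [Finset.mem_range] at hi
    apply continuousAt_const.eventually_lt (continuous_hh d i).continuousAt
    rcases lt_or_eq_of_le (by omega : i ≤ D) with h | rfl
    · exact thr_pos_at d D hd hD i h
    · exact hcon
  obtain ⟨δ, hδ, h2⟩ := Metric.eventually_nhds_iff.mp h1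
  obtain ⟨i, hi, hneg⟩ := neg_of_thr_lt d D hd hD (asymThreshold d D + δ / 2) (by linarith)
  have h3 := h2 (y := asymThreshold d D + δ / 2) (by
    rw [Real.dist_eq, abs_lt]
    constructor <;> linarith) i (Finset.mem_range.mpr (by omega))
  linarith

/-- Uniform positivity in the degrees `< D` on an interval which contains the threshold. -/
theorem unif_pos (d D : ℕ) (hd : 2 ≤ d) (hD : d ≤ D) : ∃ δ η : ℝ, 0 < δ ∧ 0 < η ∧
    ∀ i < D, ∀ g, 0 ≤ g → g ≤ asymThreshold d D + δ → η ≤ expCoeff d i g := by
  have ht := thr_pos d D hd hD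
  have hone : ∀ i < D, ∃ δ η : ℝ, 0 < δ ∧ 0 < η ∧
      ∀ g, 0 ≤ g → g ≤ asymThreshold d D + δ → η ≤ expCoeff d i g := by
    intro i hi
    have hp := thr_pos_at d D hd hD i hi
    obtain ⟨x, hx, hmin⟩ := isCompact_Icc.exists_isMinOn (s := Set.Icc 0 (asymThreshold d D))
      (Set.nonempty_Icc.2 ht.le) (continuous_hh d i).continuousOn
    have hx0 : 0 < expCoeff d i x := by
      rcases lt_or_eq_of_le hx.2 with h | h
      · exact pos_of_lt_thr d D (by omega) x hx.1 h i hi.le
      · rw [h]
        exact hp
    have h1 : ∀ᶠ y in 𝓝 (asymThreshold d D),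
        expCoeff d i (asymThreshold d D) / 2 < expCoeff d i y :=
      continuousAt_const.eventually_lt (continuous_hh d i).continuousAt (by linarith)
    obtain ⟨δ, hδ, h2⟩ := Metric.eventually_nhds_iff.mp h1
    refine ⟨δ / 2, min (expCoeff d i x) (expCoeff d i (asymThreshold d D) / 2), by linarith,
      lt_min hx0 (by linarith), fun g hg hg' => ?_⟩
    rcases le_or_gt g (asymThreshold d D) with h | h
    · exact (min_le_left _ _).trans (hmin ⟨hg, h⟩)
    · refine (min_le_right _ _).trans (h2 ?_).le
      rw [Real.dist_eq, abs_lt]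
      constructor <;> linarith
  have key : ∀ m, m ≤ D → ∃ δ η : ℝ, 0 < δ ∧ 0 < η ∧
      ∀ i < m, ∀ g, 0 ≤ g → g ≤ asymThreshold d D + δ → η ≤ expCoeff d i g := by
    intro m
    induction m with
    | zero => exact fun _ => ⟨1, 1, one_pos, one_pos, fun i hi => absurd hi (Nat.not_lt_zero i)⟩
    | succ m ih =>
      intro hm
      obtain ⟨δ, η, hδ, hη, h⟩ := ih (by omega)
      obtain ⟨δ', η', hδ', hη', h'⟩ := hone m (by omega)
      refine ⟨min δ δ', min η η', lt_min hδ hδ', lt_min hη hη', fun i hi g hg hg' => ?_⟩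
      have h1 := min_le_left δ δ'
      have h2 := min_le_right δ δ'
      rcases lt_or_eq_of_le (by omega : i ≤ m) with h3 | rfl
      · exact (min_le_left _ _).trans (h i h3 g hg (by linarith))
      · exact (min_le_right _ _).trans (h' g hg (by linarith))
  exact key D le_rfl

/-- The function in degree `D` on both sides of the threshold. -/
theorem slope (d D : ℕ) (hd : 2 ≤ d) (hD : d ≤ D) {δ η : ℝ} (hδ : 0 < δ)
    (h : ∀ i < D, ∀ g, 0 ≤ g → g ≤ asymThreshold d D + δ → η ≤ expCoeff d i g) :
    (∀ g, 0 ≤ g → g ≤ asymThreshold d D → η * (asymThreshold d D - g) ≤ expCoeff d D g) ∧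
    (∀ g, asymThreshold d D ≤ g → g ≤ asymThreshold d D + δ →
      expCoeff d D g ≤ -(η * (g - asymThreshold d D))) := by
  have ht := thr_pos d D hd hD
  have hanti : AntitoneOn (fun y : ℝ => expCoeff d D y + η * y)
      (Set.Icc 0 (asymThreshold d D + δ)) := by
    have hder : ∀ y, HasDerivAt (fun y : ℝ => expCoeff d D y + η * y)
        (-expCoeff d (D - d) y + η * 1) y := fun y =>
      (hasDerivAt_expCoeff d D (by omega) hD y).add ((hasDerivAt_id y).const_mul η)
    apply antitoneOn_of_deriv_nonpos (convex_Icc _ _)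
    · exact ((continuous_hh d D).add (continuous_const.mul continuous_id)).continuousOn
    · intro y _
      exact (hder y).differentiableAt.differentiableWithinAt
    · intro y hy
      rw [interior_Icc] at hy
      rw [(hder y).deriv]
      have := h (D - d) (by omega) y hy.1.le hy.2.le
      linarith
  have h0 := thr_zero_at d D hd hD
  constructor
  · intro g hg hg'
    have h1 := hanti ⟨hg, by linarith⟩ ⟨ht.le, by linarith⟩ hg'
    simp only at h1
    rw [h0] at h1
    linarith
  · intro g hg hg'
    have h1 := hanti ⟨ht.le, by linarith⟩ ⟨by linarith, hg'⟩ hg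
    simp only at h1
    rw [h0] at h1
    linarith

end Pool.Agent.H21.XF
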