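import Pool.Agent.H21.XF.Forms
import Pool.Agent.H21.NX.GenB
import Pool.Agent.XD.Num.Basic

/-!
# XF, module 4: from the dimensions of the spaces of forms with fat points to systems of forms
-/

set_option autoImplicit false

namespace Pool.Agent.H21.XF

open MvPolynomial Pool.Agent.H18.Fat Pool.Agent.H21.HD Pool.Agent.H21 Pool.Agent.H21.NX Pool.Agent.XD
open scoped Classical

theorem A_eq_ser {n d : ℕ} (hn : 1 ≤ n) (hd : 1 ≤ d) (k i : ℕ) :
    A (fun _ => d) n k i = serCoeff n d k i := by
  induction k generalizing i with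
  | zero =>
    rw [A_zero, fc_zero, Nat.multichoose_eq]
    have h1 : n + i - 1 = n - 1 + i := by omega
    rw [h1, Nat.choose_symm_add]
  | succ k ih =>
    rw [A_succ, fc_succ n d k i hd, ih i]
    split_ifs with h
    · rw [ih (i - d)]
    · rfl

theorem finrank_hom {F : Type} [Field F] (r E : ℕ) :
    Module.finrank F (homogeneousSubmodule (Fin (r + 1)) F E) = (E + r).choose r := by
  rw [finrank_forms, Fintype.card_fin]
  have h1 : r + 1 + E - 1 = E + r := by omega
  rw [h1, Nat.choose_symm_add]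

/-- A rational point which is general in all degrees `≤ D`. -/
theorem exists_q (r k d D : ℕ) : ∃ q : Fin k → Fin (r + 1) → ℚ, ∀ i ≤ D,
    Module.finrank ℂ (fatForms r i (fun l s => (q l s : ℂ)) (fun _ => i + 1 - d)) =
      FF (fun _ => d) (r + 1) k i := by
  have h1 : Gen r (Fin k) fun p => ∀ i ∈ Finset.range (D + 1),
      Module.finrank ℂ (fatForms r i p (fun _ => i + 1 - d)) = FF (fun _ => d) (r + 1) k i :=
    Gen.all (Finset.range (D + 1)) fun i _ => gen_gdim r i fun _ : Fin k => i + 1 - d
  obtain ⟨q, hq⟩ := exists_rat_gen h1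
  exact ⟨q, fun i hi => hq i (Finset.mem_range.2 (by omega))⟩

theorem systems {r k d D : ℕ} (hd : 1 ≤ d)
    (h : ∀ i, d ≤ i → i ≤ D → (FF (fun _ => d) (r + 1) k i : ℤ) = A (fun _ => d) (r + 1) k i)
    (K : Type) [Field K] [CharZero K] :
    ∃ g : Fin k → Fd K (r + 1) d, ∀ e, e + d ≤ D →
      cd g k (e + d) ≤ serCoeff (r + 1) d k (e + d) := by
  obtain ⟨q, hq⟩ := exists_q r k d D
  refine exists_over' (fun l => qpow d (q l)) (fun l => qpow_hom d (q l)) fun e he => ?_
  have h1 := choose_le_qV (d := d) (e := e) q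
  rw [hq (e + d) he] at h1
  have h2 := h (e + d) (Nat.le_add_left d e) he
  rw [A_eq_ser (by omega) hd] at h2
  rw [finrank_hom, ← h2]
  exact_mod_cast h1

/-- If there are no forms of degree `D` with the multiplicity `D + 1 - d` at `u` general points, then `u`
general forms of degree `d` generate all forms of degree `D`. -/
theorem full_of_zero {r u d j : ℕ} (h : FF (fun _ => d) (r + 1) u (j + d) = 0)
    (K : Type) [Field K] [CharZero K]
    (hu : u ≤ Module.finrank K (homogeneousSubmodule (Fin (r + 1)) K d)) :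
    ∃ V : Submodule K (MvPolynomial (Fin (r + 1)) K), V ≤ homogeneousSubmodule (Fin (r + 1)) K d ∧
      Module.finrank K V = u ∧ prodSpan j V = homogeneousSubmodule (Fin (r + 1)) K (j + d) := by
  obtain ⟨q, hq⟩ := exists_q r u d (j + d)
  have h1 := choose_le_qV (d := d) (e := j) q
  rw [hq (j + d) le_rfl, h, zero_add, ← finrank_hom (F := ℚ)] at h1
  have hV := qV_le d q
  have h2 : prodSpan j (qV d q) = homogeneousSubmodule (Fin (r + 1)) ℚ (j + d) :=
    Submodule.eq_of_le_of_finrank_le (prodSpan_le hV) h1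
  have hfd : FiniteDimensional ℚ (qV d q) := Submodule.finiteDimensional_of_le hV
  have h3 : Module.finrank ℚ (qV d q) ≤ u := by
    have h6 := finrank_range_le_card (R := ℚ) (fun l => qpow d (q l))
    rw [Fintype.card_fin] at h6
    exact h6
  have h4 : Module.finrank K (bc (K := K) (qV d q)) ≤ u := (finrank_bc_le (qV d q)).trans h3
  obtain ⟨V, hVV, hVd, hVu⟩ := exists_extend (homogeneousSubmodule (Fin (r + 1)) K d) u hu
    (bc (K := K) (qV d q)) (bc_le_homogeneous hV) h4
  refine ⟨V, hVd, hVu, ?_⟩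
  apply le_antisymm
  · exact prodSpan_le hVd
  · calc homogeneousSubmodule (Fin (r + 1)) K (j + d) ≤
        bc (K := K) (homogeneousSubmodule (Fin (r + 1)) ℚ (j + d)) := homogeneous_le_bc _ (j + d)
      _ = bc (K := K) (prodSpan j (qV d q)) := by rw [h2]
      _ ≤ prodSpan j (bc (K := K) (qV d q)) := bc_prodSpan_le (qV d q)
      _ ≤ prodSpan j V := prodSpan_mono hVV

/-- The formula beyond the first negative coefficient. -/
theorem froberg_super {r u d j D : ℕ} (hdD : d ≤ D) (hDj : D ≤ j + d)
    (h : FF (fun _ => d) (r + 1) u D = 0) (hneg : ∃ m ≤ D, serCoeff (r + 1) d u m < 0)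
    (K : Type) [Field K] [CharZero K]
    (hu : u ≤ Module.finrank K (homogeneousSubmodule (Fin (r + 1)) K d)) :
    FrobergAt K (r + 1) d u j := by
  obtain ⟨m, hm, hneg⟩ := hneg
  have hc0 : truncCoeff (r + 1) d u (j + d) = 0 := by
    unfold truncCoeff
    rw [if_neg]
    intro h
    have := h m (hm.trans hDj)
    omega
  refine ⟨?_, ?_⟩
  · intro V hV _
    rw [hc0, sub_zero]
    have h1 := prodSpan_le (e := j) hV
    exact_mod_cast Submodule.finrank_mono h1
  · have hD : D - d + d = D := Nat.sub_add_cancel hdD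
    obtain ⟨V, hV1, hV2, hV3⟩ := full_of_zero (j := D - d) (by rw [hD]; exact h) K hu
    refine ⟨V, hV1, hV2, ?_⟩
    rw [hc0, sub_zero]
    have h2 : homogeneousSubmodule (Fin (r + 1)) K D ≤ prodSpan (D - d) V := by
      rw [hV3, hD]
    have h3 := prodSpan_full hdD hDj h2
    rw [Nat.add_sub_cancel] at h3
    have h4 : prodSpan j V = homogeneousSubmodule (Fin (r + 1)) K (j + d) :=
      le_antisymm (prodSpan_le hV1) h3
    rw [h4]

end Pool.Agent.H21.XF
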