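import Pool.Agent.XE2.Step2
import Pool.Agent.XD.Num.Xd
import Pool.Agent.XD.Struct
import Pool.Agent.H21.Final
import Pool.Agent.H21.XF.Sys
import Pool.Agent.H21.XF.Near
import Pool.Agent.H21.XF.Strict

/-!
# XF, module 7: Fröberg's formula off windows of size `C n^(d-1) log n`
-/

set_option autoImplicit false

namespace Pool.Agent.H21.XF

open MvPolynomial Pool.Agent.H18.Fat Pool.Agent.H21.HD Pool.Agent.H21 Pool.Agent.H21.NX Pool.Agent.XD

/-- The numbers and the dimensions on both sides of the threshold. -/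
theorem sides (d D : ℕ) (hd : 2 ≤ d) (hD : d ≤ D) : ∃ δ C : ℝ, 0 < δ ∧ 0 < C ∧ ∃ n₀ : ℕ, 1 ≤ n₀ ∧
    ∀ n, n₀ ≤ n → ∀ u : ℕ,
      ((u : ℝ) ≤ asymThreshold d D * (n : ℝ) ^ d - C * (n : ℝ) ^ (d - 1) * Real.log n →
        ∀ i, d ≤ i → i ≤ D → (FF (fun _ => d) n u i : ℤ) = A (fun _ => d) n u i) ∧
      (asymThreshold d D * (n : ℝ) ^ d + C * (n : ℝ) ^ (d - 1) ≤ (u : ℝ) →
        (u : ℝ) ≤ (asymThreshold d D + δ) * (n : ℝ) ^ d →
        FF (fun _ => d) n u D = 0 ∧ serCoeff n d u D < 0) ∧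
      ((u : ℝ) ≤ (asymThreshold d D + δ) * (n : ℝ) ^ d →
        (∀ i < D, 0 < A (fun _ => d) n u i) ∧
        ∀ i < D, (FF (fun _ => d) n u i : ℤ) = A (fun _ => d) n u i) := by
  have ht := thr_pos d D hd hD
  obtain ⟨t, htdef⟩ : ∃ t, t = asymThreshold d D := ⟨_, rfl⟩
  rw [← htdef] at ht ⊢
  obtain ⟨δ, η, hδ, hη, hpos⟩ := unif_pos d D hd hD
  obtain ⟨hsl1, hsl2⟩ := slope d D hd hD hδ hpos
  rw [← htdef] at hpos hsl1 hsl2
  have hM : 0 ≤ t + δ := by linarith
  choose Cf hCf0 hCf using fun i => ser_rate d (by omega : 1 ≤ d) i (t + δ) hM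
  obtain ⟨Cm, hCm⟩ : ∃ Cm : ℝ, Cm = ∑ i ∈ Finset.range (D + 1), Cf i := ⟨_, rfl⟩
  have hCfle : ∀ i ≤ D, Cf i ≤ Cm := fun i hi => by
    rw [hCm]
    exact Finset.single_le_sum (fun j _ => hCf0 j) (Finset.mem_range.2 (by omega))
  have hCm0 : 0 ≤ Cm := by
    rw [hCm]
    exact Finset.sum_nonneg fun i _ => hCf0 i
  obtain ⟨C₁, hC₁, n₁, h₁⟩ := Pool.Agent.XE2.xe2 D
  have hη2 : 0 < η / 2 := by linarith
  choose nf hnf using fun i => xd i (η / 2) hη2
  obtain ⟨n₂, hn₂⟩ := exists_nat_ge (2 * Cm / η)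
  obtain ⟨C, hC⟩ : ∃ C : ℝ, C = (C₁ + Cm + 1) / η := ⟨_, rfl⟩
  have hCη : η * C = C₁ + Cm + 1 := by
    rw [hC]
    field_simp
  have hC0 : 0 < C := by
    rw [hC]
    positivity
  refine ⟨δ, C, hδ, hC0, n₁ + n₂ + (∑ i ∈ Finset.range (D + 1), nf i) + 3, by omega,
    fun n hn u => ?_⟩
  have hnf' : ∀ i ≤ D, nf i ≤ n := by
    intro i hi
    have := Finset.single_le_sum (f := nf) (fun i _ => Nat.zero_le _)
      (Finset.mem_range.2 (by omega : i < D + 1))
    omega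
  have hn1 : 1 ≤ n := by omega
  have hnR : (3 : ℝ) ≤ n := by exact_mod_cast (by omega : 3 ≤ n)
  have hn0 : (0 : ℝ) < n := by linarith
  have hnd : (0 : ℝ) < (n : ℝ) ^ d := by positivity
  have hn2 : 2 * Cm / η ≤ n := hn₂.trans (by exact_mod_cast (by omega : n₂ ≤ n))
  have hlog : 1 ≤ Real.log n := by
    rw [Real.le_log_iff_exp_le hn0]
    have := Real.exp_one_lt_d9
    linarith
  have hlog0 : 0 ≤ Real.log n := by linarith
  have hD1 : (n : ℝ) ^ D / n = (n : ℝ) ^ (D - 1) := by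
    rw [div_eq_iff hn0.ne', ← pow_succ]
    congr 1
    omega
  have hDd : (n : ℝ) ^ d * (n : ℝ) ^ (D - d) = (n : ℝ) ^ D := by
    rw [← pow_add]
    congr 1
    omega
  have hDd1 : (n : ℝ) ^ (d - 1) * (n : ℝ) ^ (D - d) = (n : ℝ) ^ (D - 1) := by
    rw [← pow_add]
    congr 1
    omega
  have hpD : (0 : ℝ) < (n : ℝ) ^ (D - 1) := by positivity
  have hpDd : (0 : ℝ) < (n : ℝ) ^ (D - d) := by positivity
  have hpd : (0 : ℝ) < (n : ℝ) ^ (d - 1) := by positivity
  -- positivity in the degrees `< D`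
  have hlow : (u : ℝ) ≤ (t + δ) * (n : ℝ) ^ d → ∀ i < D,
      η / 2 * (n : ℝ) ^ i ≤ (A (fun _ => d) n u i : ℝ) := by
    intro hu i hi
    rw [A_eq_ser hn1 (by omega)]
    have h2 := hCf i n u hn1 hu
    have hg0 : (0 : ℝ) ≤ (u : ℝ) / (n : ℝ) ^ d := by positivity
    have hg1 : (u : ℝ) / (n : ℝ) ^ d ≤ t + δ := by
      rw [div_le_iff₀ hnd]
      exact hu
    have h3 := hpos i hi _ hg0 hg1
    have h4 : (0 : ℝ) < (n : ℝ) ^ i := by positivity
    have h5 : Cf i * (n : ℝ) ^ i / n ≤ η / 2 * (n : ℝ) ^ i := by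
      rw [div_le_iff₀ hn0]
      have h6 : Cf i ≤ η / 2 * n := by
        rw [div_le_iff₀ hη] at hn2
        have := hCfle i hi.le
        linarith
      calc Cf i * (n : ℝ) ^ i ≤ (η / 2 * n) * (n : ℝ) ^ i := mul_le_mul_of_nonneg_right h6 h4.le
        _ = _ := by ring
    have h6 := (abs_le.1 h2).1
    have h7 := mul_le_mul_of_nonneg_right h3 h4.le
    linarith
  have he2 : ∀ _s : ℕ, 2 ≤ (fun _ : ℕ => d) _s := fun _ => hd
  have he1 : ∀ _s : ℕ, 1 ≤ (fun _ : ℕ => d) _s := fun _ => by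
    show 1 ≤ d
    omega
  have hxe := h₁ n (by omega) (fun _ => d) he2 u (fun s _ => hD)
  have hApos : (u : ℝ) ≤ (t + δ) * (n : ℝ) ^ d → ∀ j < D, 0 < A (fun _ => d) n u j := by
    intro hu j hj
    have h3 := hlow hu j hj
    have h4 : (0 : ℝ) < η / 2 * (n : ℝ) ^ j := by positivity
    have h5 : (0 : ℝ) < (A (fun _ => d) n u j : ℝ) := lt_of_lt_of_le h4 h3
    exact_mod_cast h5
  have hFlow : (u : ℝ) ≤ (t + δ) * (n : ℝ) ^ d → ∀ i < D,
      (FF (fun _ => d) n u i : ℤ) = A (fun _ => d) n u i := fun hu' i hi =>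
    hnf i n (hnf' i hi.le) (fun _ => d) (FF fun _ => d) he2 (sys_FF i _ he1) n u le_rfl
      fun j hj => hlow hu' j (by omega)
  refine ⟨?_, ?_, fun hu' => ⟨hApos hu', hFlow hu'⟩⟩
  · intro hu i hdi hi
    have hLpos : 0 ≤ C * (n : ℝ) ^ (d - 1) * Real.log n := by positivity
    have hu' : (u : ℝ) ≤ (t + δ) * (n : ℝ) ^ d := by
      have : 0 ≤ δ * (n : ℝ) ^ d := by positivity
      linarith
    rcases lt_or_eq_of_le hi with hi | rfl
    · -- degrees `< D`
      exact hFlow hu' i hi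
    · refine hxe.1 (hApos hu') ?_
      rw [A_eq_ser hn1 (by omega)]
      have h2 := hCf i n u hn1 hu'
      have hg0 : (0 : ℝ) ≤ (u : ℝ) / (n : ℝ) ^ d := by positivity
      have hg1 : (u : ℝ) / (n : ℝ) ^ d ≤ t := by
        rw [div_le_iff₀ hnd]
        linarith
      have h3 := hsl1 _ hg0 hg1
      have h4 : (0 : ℝ) < (n : ℝ) ^ i := by positivity
      have h5 := mul_le_mul_of_nonneg_right h3 h4.le
      have h6 : η * (t - (u : ℝ) / (n : ℝ) ^ d) * (n : ℝ) ^ i =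
          η * (t * (n : ℝ) ^ d - u) * (n : ℝ) ^ (i - d) := by
        rw [← hDd]
        field_simp
      have h7 : η * (C * (n : ℝ) ^ (d - 1) * Real.log n) * (n : ℝ) ^ (i - d) ≤
          η * (t * (n : ℝ) ^ d - u) * (n : ℝ) ^ (i - d) := by
        refine mul_le_mul_of_nonneg_right (mul_le_mul_of_nonneg_left ?_ hη.le) hpDd.le
        linarith
      have h8 : η * (C * (n : ℝ) ^ (d - 1) * Real.log n) * (n : ℝ) ^ (i - d) =
          (C₁ + Cm + 1) * (n : ℝ) ^ (i - 1) * Real.log n := by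
        rw [← hCη, ← hDd1]
        ring
      have h9 : Cf i * (n : ℝ) ^ i / n ≤ Cm * (n : ℝ) ^ (i - 1) * Real.log n := by
        rw [mul_div_assoc, hD1]
        have h10 : Cf i * (n : ℝ) ^ (i - 1) ≤ Cm * (n : ℝ) ^ (i - 1) :=
          mul_le_mul_of_nonneg_right (hCfle i le_rfl) hpD.le
        have h11 : Cm * (n : ℝ) ^ (i - 1) * 1 ≤ Cm * (n : ℝ) ^ (i - 1) * Real.log n :=
          mul_le_mul_of_nonneg_left hlog (by positivity)
        linarith
      have h10 := (abs_le.1 h2).1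
      have h11 : 0 ≤ (n : ℝ) ^ (i - 1) * Real.log n := by positivity
      linarith
  · intro hu hu'
    have h2 := hCf D n u hn1 hu'
    have hg0 : t ≤ (u : ℝ) / (n : ℝ) ^ d := by
      rw [le_div_iff₀ hnd]
      have : 0 ≤ C * (n : ℝ) ^ (d - 1) := by positivity
      linarith
    have hg1 : (u : ℝ) / (n : ℝ) ^ d ≤ t + δ := by
      rw [div_le_iff₀ hnd]
      exact hu'
    have h3 := hsl2 _ hg0 hg1
    have h4 : (0 : ℝ) < (n : ℝ) ^ D := by positivity
    have h5 := mul_le_mul_of_nonneg_right h3 h4.le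
    have h6 : -(η * ((u : ℝ) / (n : ℝ) ^ d - t)) * (n : ℝ) ^ D =
        -(η * (u - t * (n : ℝ) ^ d) * (n : ℝ) ^ (D - d)) := by
      rw [← hDd]
      field_simp
    have h7 : η * (C * (n : ℝ) ^ (d - 1)) * (n : ℝ) ^ (D - d) ≤
        η * (u - t * (n : ℝ) ^ d) * (n : ℝ) ^ (D - d) := by
      refine mul_le_mul_of_nonneg_right (mul_le_mul_of_nonneg_left ?_ hη.le) hpDd.le
      linarith
    have h8 : η * (C * (n : ℝ) ^ (d - 1)) * (n : ℝ) ^ (D - d) =
        (C₁ + Cm + 1) * (n : ℝ) ^ (D - 1) := by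
      rw [← hCη, ← hDd1]
      ring
    have h9 : Cf D * (n : ℝ) ^ D / n ≤ Cm * (n : ℝ) ^ (D - 1) := by
      rw [mul_div_assoc, hD1]
      exact mul_le_mul_of_nonneg_right (hCfle D le_rfl) hpD.le
    have h10 := (abs_le.1 h2).2
    have h11 : (serCoeff n d u D : ℝ) ≤ -((C₁ + 1) * (n : ℝ) ^ (D - 1)) := by linarith
    constructor
    · refine hxe.2 (Or.inr ?_)
      rw [A_eq_ser hn1 (by omega)]
      linarith
    · have h12 : (0 : ℝ) < (C₁ + 1) * (n : ℝ) ^ (D - 1) := by positivity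
      have h13 : (serCoeff n d u D : ℝ) < 0 := by linarith
      exact_mod_cast h13

/-- Fröberg's formula in the degree `D` for `u` below the window, and in all degrees `≥ D` for `u` above
the window. -/
theorem one_degree_log (d D : ℕ) (hd : 2 ≤ d) (hD : d ≤ D) : ∃ C : ℝ, 0 < C ∧ ∃ n₀ : ℕ,
    ∀ n, n₀ ≤ n → ∀ u : ℕ,
      ((u : ℝ) ≤ asymThreshold d D * (n : ℝ) ^ d - C * (n : ℝ) ^ (d - 1) * Real.log n →
        ∀ (K : Type) [Field K] [CharZero K], FrobergAt K n d u (D - d)) ∧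
      (asymThreshold d D * (n : ℝ) ^ d + C * (n : ℝ) ^ (d - 1) ≤ (u : ℝ) →
        ∀ (K : Type) [Field K] [CharZero K],
          u ≤ Module.finrank K (homogeneousSubmodule (Fin n) K d) →
          ∀ j : ℕ, D ≤ j + d → FrobergAt K n d u j) := by
  obtain ⟨δ, C, hδ, hC, n₁, hn₁, h₁⟩ := sides d D hd hD
  obtain ⟨n₂, h₂⟩ := super_all d D hd hD (asymThreshold d D + δ)
    (neg_of_thr_lt d D hd hD _ (by linarith))
  refine ⟨C, hC, n₁ + n₂, fun n hn u => ?_⟩
  obtain ⟨r, rfl⟩ : ∃ r, n = r + 1 := ⟨n - 1, by omega⟩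
  constructor
  · intro hu K _ _
    refine froberg_of_systems (by omega) (by omega) fun k hk => ?_
    have hku : (k : ℝ) ≤ u := by exact_mod_cast hk
    have h3 := (h₁ (r + 1) (by omega) k).1 (hku.trans hu)
    rw [Nat.sub_add_cancel hD]
    exact systems (by omega) h3 K
  · intro hu K _ _ huK j hj
    rcases le_or_gt (u : ℝ) ((asymThreshold d D + δ) * ((r + 1 : ℕ) : ℝ) ^ d) with h | h
    · obtain ⟨h3, h4⟩ := (h₁ (r + 1) (by omega) u).2.1 hu h
      exact froberg_super hD hj h3 ⟨D, le_rfl, h4⟩ K huK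
    · exact h₂ (r + 1) (by omega) u h.le K huK j hj

/-- If the powers of general linear forms are exact in degree `D` near the threshold, then Fröberg's
formula holds in degree `D` for all large `n` and all `u`. -/
theorem closed_of_exact (d D : ℕ) (hd : 2 ≤ d) (hD : d ≤ D)
    (hex : ∃ n₁ T : ℕ, ∀ n, n₁ ≤ n → ∀ k, T ≤ k → (∀ j < D, 0 < A (fun _ => d) n k j) →
      (FF (fun _ => d) n k D : ℤ) = max (A (fun _ => d) n k D) 0) :
    ∃ n₀ : ℕ, ∀ n, n₀ ≤ n → ∀ u : ℕ, ∀ (K : Type) [Field K] [CharZero K],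
      u ≤ Module.finrank K (homogeneousSubmodule (Fin n) K d) → FrobergAt K n d u (D - d) := by
  obtain ⟨δ, C, hδ, hC, n₁, hn₁, h₁⟩ := sides d D hd hD
  obtain ⟨n₂, h₂⟩ := super_all d D hd hD (asymThreshold d D + δ)
    (neg_of_thr_lt d D hd hD _ (by linarith))
  obtain ⟨n₃, T, h₃⟩ := hex
  have ht := thr_pos d D hd hD
  -- few powers are on the left of the window
  obtain ⟨n₄, hn₄⟩ : ∃ n₄ : ℕ, ∀ n : ℕ, n₄ ≤ n →
      (T : ℝ) ≤ asymThreshold d D * (n : ℝ) ^ d - C * (n : ℝ) ^ (d - 1) * Real.log n := by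
    have h4 : Filter.Tendsto (fun n : ℕ => (n : ℝ) * (asymThreshold d D - C * (Real.log n / n)))
        Filter.atTop Filter.atTop := by
      refine Filter.Tendsto.atTop_mul_pos (C := asymThreshold d D) ht
        tendsto_natCast_atTop_atTop ?_
      have h5 : Filter.Tendsto (fun n : ℕ => Real.log n / (n : ℝ)) Filter.atTop (nhds 0) := by
        have h6 := Real.isLittleO_log_id_atTop.tendsto_div_nhds_zero
        exact h6.comp tendsto_natCast_atTop_atTop
      have h7 := (tendsto_const_nhds (x := asymThreshold d D)).sub (h5.const_mul C)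
      rw [mul_zero, sub_zero] at h7
      exact h7
    obtain ⟨n₄, h5⟩ := Filter.eventually_atTop.1 ((h4.eventually_ge_atTop (T : ℝ)).and
      (Filter.eventually_ge_atTop 1))
    refine ⟨n₄, fun n hn => ?_⟩
    obtain ⟨h6, h7⟩ := h5 n hn
    have hn1 : (1 : ℝ) ≤ n := by exact_mod_cast h7
    have hn0 : (0 : ℝ) < n := by linarith
    have h8 : (1 : ℝ) ≤ (n : ℝ) ^ (d - 1) := one_le_pow₀ hn1
    have h9 : asymThreshold d D * (n : ℝ) ^ d - C * (n : ℝ) ^ (d - 1) * Real.log n =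
        (n : ℝ) ^ (d - 1) * ((n : ℝ) * (asymThreshold d D - C * (Real.log n / n))) := by
      have h10 : (n : ℝ) ^ d = (n : ℝ) ^ (d - 1) * n := by
        rw [← pow_succ]
        congr 1
        omega
      rw [h10]
      field_simp
    rw [h9]
    have h10 : (0 : ℝ) ≤ (n : ℝ) * (asymThreshold d D - C * (Real.log n / n)) :=
      le_trans (Nat.cast_nonneg T) h6
    calc (T : ℝ) ≤ 1 * ((n : ℝ) * (asymThreshold d D - C * (Real.log n / n))) := by
          rw [one_mul]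
          exact h6
      _ ≤ _ := mul_le_mul_of_nonneg_right h8 h10
  refine ⟨n₁ + n₂ + n₃ + n₄, fun n hn u K _ _ huK => ?_⟩
  obtain ⟨r, rfl⟩ : ∃ r, n = r + 1 := ⟨n - 1, by omega⟩
  rcases le_or_gt (u : ℝ) ((asymThreshold d D + δ) * ((r + 1 : ℕ) : ℝ) ^ d) with h | h
  · -- the dimension for all `k ≤ u`
    have hk : ∀ k ≤ u, (∀ i < D, 0 < A (fun _ => d) (r + 1) k i) ∧
        (∀ i < D, (FF (fun _ => d) (r + 1) k i : ℤ) = A (fun _ => d) (r + 1) k i) ∧
        (FF (fun _ => d) (r + 1) k D : ℤ) = max (A (fun _ => d) (r + 1) k D) 0 := by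
      intro k hk
      have hku : (k : ℝ) ≤ u := by exact_mod_cast hk
      obtain ⟨h5, _, h6⟩ := h₁ (r + 1) (by omega) k
      obtain ⟨h7, h8⟩ := h6 (hku.trans h)
      refine ⟨h7, h8, ?_⟩
      rcases Nat.lt_or_ge k T with h9 | h9
      · have h10 : (k : ℝ) ≤ T := by exact_mod_cast h9.le
        have h11 := h5 (h10.trans (hn₄ (r + 1) (by omega))) D hD le_rfl
        have h12 : 0 ≤ A (fun _ => d) (r + 1) k D := by
          rw [← h11]
          exact Int.natCast_nonneg _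
        rw [h11, max_eq_left h12]
      · exact h₃ (r + 1) (by omega) k h9 h7
    obtain ⟨_, _, hu3⟩ := hk u le_rfl
    rcases lt_or_ge (A (fun _ => d) (r + 1) u D) 0 with h5 | h5
    · rw [max_eq_right h5.le] at hu3
      rw [A_eq_ser (by omega) (by omega)] at h5
      exact froberg_super hD (by omega) (by exact_mod_cast hu3) ⟨D, le_rfl, h5⟩ K huK
    · refine froberg_of_systems (by omega) (by omega) fun k hku => ?_
      rw [Nat.sub_add_cancel hD]
      refine systems (by omega) (fun i hi hi' => ?_) K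
      obtain ⟨h6, h7, h8⟩ := hk k hku
      rcases lt_or_eq_of_le hi' with h9 | rfl
      · exact h7 i h9
      · rw [h8, max_eq_left]
        -- `A` decreases
        have he1 : ∀ _s : ℕ, 1 ≤ (fun _ : ℕ => d) _s := fun _ => by
          show 1 ≤ d
          omega
        refine h5.trans (A_anti_t he1 (T := u) (D := i) (fun j hj => ?_) hku le_rfl)
        exact ((hk u le_rfl).1 j hj).le
  · exact h₂ (r + 1) (by omega) u h.le K huK (D - d) (by omega)

end Pool.Agent.H21.XF
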