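import Pool.Agent.H21.XF.All
import Pool.Agent.KQ.Final

/-!
# XF, module 9: quadrics in degree `4`

The squares of general linear forms are exact in degree `4`: `Pool.Agent.KQ.exact4` with all multiplicities
equal to `3`.
-/

set_option autoImplicit false

namespace Pool.Agent.H21.XF

open MvPolynomial Pool.Agent.H18.Fat Pool.Agent.H21.HD Pool.Agent.H21 Pool.Agent.H21.NX Pool.Agent.XD
open scoped Classical

theorem fro_eq_A (e : ℕ → ℕ) (r t j : ℕ) :
    fro r (fun s : Fin t => e s) Finset.univ j = A e (r + 1) t j := by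
  have h1 : (Finset.univ : Finset (Fin t)).map Fin.valEmbedding = Finset.range t := by
    ext x
    rw [Finset.mem_map, Finset.mem_range]
    constructor
    · rintro ⟨y, -, rfl⟩
      exact y.2
    · intro hx
      exact ⟨⟨x, hx⟩, Finset.mem_univ _, rfl⟩
  have h2 := fro_map r (Fin.valEmbedding : Fin t ↪ ℕ) e Finset.univ j
  rw [h1, fro_range] at h2
  exact h2.symm

/-- Squares of general linear forms in degree `4`. -/
theorem exact_quad : ∃ n₁ T : ℕ, ∀ n, n₁ ≤ n → ∀ k, T ≤ k →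
    (∀ j < 4, 0 < A (fun _ => 2) n k j) →
    (FF (fun _ => 2) n k 4 : ℤ) = max (A (fun _ => 2) n k 4) 0 := by
  obtain ⟨T, n₀, h⟩ := Pool.Agent.KQ.exact4
  refine ⟨n₀ + 1, T, fun n hn k hk hpos => ?_⟩
  obtain ⟨r, rfl⟩ : ∃ r, n = r + 1 := ⟨n - 1, by omega⟩
  have hfro : ∀ j, fro r (fun _ : Fin k => 4 + 1 - 3) Finset.univ j = A (fun _ => 2) (r + 1) k j :=
    fun j => fro_eq_A (fun _ => 2) r k j
  have hc4 : (Finset.univ.filter fun _ : Fin k => (3 : ℕ) = 4).card = 0 := by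
    rw [Finset.card_eq_zero, Finset.filter_eq_empty_iff]
    intro i _ h
    omega
  have hc3 : (Finset.univ.filter fun _ : Fin k => (3 : ℕ) = 3).card = k := by
    rw [Finset.filter_true_of_mem fun i _ => rfl, Finset.card_univ, Fintype.card_fin]
  have h1 := h r k (fun _ => 3) (fun _ => by omega) (r + 1) (by rw [hc4]) (by omega)
    (by rw [hc3]; exact hk) (fun j hj => by
      rw [hfro j]
      exact hpos j hj)
  rw [hfro 4] at h1
  have h2 : Gen r (Fin k) fun p =>
      (Module.finrank ℂ (fatForms r 4 p fun _ => 3) : ℤ) = max (A (fun _ => 2) (r + 1) k 4) 0 := h1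
  have h3 : Gen r (Fin k) fun p =>
      Module.finrank ℂ (fatForms r 4 p fun _ => 3) = FF (fun _ => 2) (r + 1) k 4 :=
    gen_gdim r 4 fun _ : Fin k => 3
  obtain ⟨p, hp1, hp2⟩ := Gen.exists (h2.and h3)
  rw [← hp1, hp2]

/-- Fröberg's formula for quadrics in degree `4`, for all large `n` and all `u`. -/
theorem quad_closed : ∃ n₀ : ℕ, ∀ n, n₀ ≤ n → ∀ u : ℕ, ∀ (K : Type) [Field K] [CharZero K],
    u ≤ Module.finrank K (homogeneousSubmodule (Fin n) K 2) → FrobergAt K n 2 u 2 :=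
  closed_of_exact 2 4 le_rfl (by norm_num) exact_quad

/-- The degrees in which the formula is known for all `u` and all large `n`. -/
theorem closed_degrees (d : ℕ) (hd : 2 ≤ d) (D : ℕ) (hdD : d ≤ D) (h : D < max (2 * d) 5) :
    ∃ n₀ : ℕ, ∀ n, n₀ ≤ n → ∀ u : ℕ, ∀ (K : Type) [Field K] [CharZero K],
      u ≤ Module.finrank K (homogeneousSubmodule (Fin n) K d) → FrobergAt K n d u (D - d) := by
  rcases Nat.lt_or_ge D (2 * d) with h1 | h1
  · obtain ⟨n₀, h₀⟩ := low_degrees_eventually d (by omega)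
    exact ⟨n₀, fun n hn u K _ _ huK => h₀ n hn u (D - d) (by omega) K huK⟩
  · have h2 : d = 2 := by
      rcases lt_max_iff.1 h with h3 | h3
      · omega
      · omega
    subst h2
    have h3 : D = 4 := by
      rcases lt_max_iff.1 h with h4 | h4
      · omega
      · omega
    subst h3
    exact quad_closed

/-- All degrees, with windows only for `D ≥ 2 d` and `D ≥ 5`. -/
theorem all_degrees_quad (d : ℕ) (hd : 2 ≤ d) (a : ℝ) (ha : 0 < a) : ∃ (D₀ : ℕ) (C : ℝ), 0 < C ∧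
    ∃ n₀ : ℕ, ∀ n, n₀ ≤ n → ∀ u : ℕ, a * (n : ℝ) ^ d ≤ (u : ℝ) →
      (∀ D, max (2 * d) 5 ≤ D → D ≤ D₀ →
        (u : ℝ) ≤ asymThreshold d D * (n : ℝ) ^ d - C * (n : ℝ) ^ (d - 1) * Real.log n ∨
        asymThreshold d D * (n : ℝ) ^ d + C * (n : ℝ) ^ (d - 1) ≤ (u : ℝ)) →
      FrobergAll n d u := by
  obtain ⟨D₀, C, hC, n₀, h⟩ := all_degrees_log d hd (fun D => D < max (2 * d) 5)
    (fun D hD hP => closed_degrees d hd D hD hP) a ha
  exact ⟨D₀, C, hC, n₀, fun n hn u hu hwin => h n hn u hu fun D _ hnP hD₀ =>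
    hwin D (not_lt.1 hnP) hD₀⟩

end Pool.Agent.H21.XF
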